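import Pool.Agent.Helper64.NC.Plane

/-!
NC-CU. Consequences of genus 0 and cyclic 4-edge-connectivity.

Conventions: `Fc x y` = same face (cycle of `face = σ α`, i.e. `face x = σ (α x)`).  Note
`face (α x) = σ x`, so `Fc (α x) (σ x)`, and `Fc x (σ (α x))`.

`homology`: from `planar_boundary` (file F1) applied to `permσ`, `permα`; the σ-cycle of `d` is
`{d, σ d, σ (σ d)}` (three distinct darts).

Cuts: `planar_boundary` applied to `face`, `permα` (note `face * permα = permσ`; the set is closed
under `σ` and `α` iff under `face` and `α`) gives: every `α`-invariant `h` with zero sum over every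
face is `h d = k d + k (α d)` with `k` `σ`-invariant.

`noloop`: if `α x = σ x` put `y = σ (σ x)`, `w = α y`; the set of darts of the vertices of `x` and
`w` (6 darts, the two vertices are different) is left by at most two edges, contradicting `C4`
(`12 ≤ |D|`).  If `α x = σ (σ x)` use `x' = σ (σ x)`, for which `α x' = σ x'`.

Cut lemma: let `S` be a nonempty `α`-invariant set of at most 6 darts (at most 3 edges), with an
even number of darts in every face.  Take `k` as above for its indicator, `A = {k = 1}`; `A` is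
`σ`-closed, `x ∈ S` iff exactly one of `x, α x` is in `A`, so `A` is left by `|S|/2 ≤ 3` edges.  By
`C4` one of `A`, `Aᶜ` has fewer than 6 darts; being `σ`-closed and nonempty (as `S` is nonempty) it
is a single vertex `{v, σ v, σ (σ v)}`.  As there are no loops, `S` consists of these three darts
and their images under `α`, in particular `|S| = 6`.

`adj0`: `S = {x, α x}`.  `adj1`: `S = {x, α x, y, α y}` (if `y ≠ x`; `y ≠ α x` by `adj0`).
`adj2`: `S = {x, α x, y, α y, z, α z}` (first: these are 6 distinct darts by `adj0`, `adj1`); the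
vertex `v` of the cut lemma contains `x` or `α x`.  If it contains `x`, then `σ x ∈ S` and
`Fc (σ x) (α x)`, and by `adj0` and `noloop` the only possibility is `σ x = y`; then `σ y ∈ S`,
`Fc (σ y) (α y)` and the only possibility is `σ y = z`.  If it contains `α x` then `σ (α x) ∈ S`,
`Fc (σ (α x)) x` and the only possibility is `σ (α x) = α z`; then similarly `σ (α z) = α y`. -/

namespace Pool.H64.NC.CubicMap

variable {D : Type*} [Fintype D] [DecidableEq D] {M : CubicMap D}

omit [DecidableEq D] in
theorem cu_same_cases (M : CubicMap D) {d x : D} (h : M.permσ.SameCycle d x) :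
    x = d ∨ x = M.σ d ∨ x = M.σ (M.σ d) := by
  obtain ⟨n, hn⟩ := h.exists_nat_pow_eq
  have key : ∀ n : ℕ, (M.permσ ^ n) d = d ∨ (M.permσ ^ n) d = M.σ d ∨
      (M.permσ ^ n) d = M.σ (M.σ d) := by
    intro n
    induction n with
    | zero => left; simp
    | succ n ih =>
      rw [pow_succ', Equiv.Perm.mul_apply]
      have e : ∀ y, M.permσ y = M.σ y := fun _ => rfl
      rcases ih with h | h | h
      · rw [h, e]; right; left; rfl
      · rw [h, e]; right; right; rfl
      · rw [h, e, M.σ3]; left; rfl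
  have := key n
  rwa [hn] at this

theorem homology (hM : M.Genus0) (h : D → ZMod 2) (h1 : ∀ d, h (M.α d) = h d)
    (h2 : ∀ d, h d + h (M.σ d) + h (M.σ (M.σ d)) = 0) :
    ∃ g : D → ZMod 2, (∀ d, g (M.σ (M.α d)) = g d) ∧ ∀ d, h d = g d + g (M.α d) := by
  classical
  apply planar_boundary M.permσ M.permα M.α2 M.α1 hM.1 hM.2 h h1
  intro d
  have hs : ∑ x ∈ ({d, M.σ d, M.σ (M.σ d)} : Finset D), h x = 0 := by
    rw [Finset.sum_insert, Finset.sum_insert, Finset.sum_singleton, ← add_assoc]
    · exact h2 d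
    · simp only [Finset.mem_singleton]
      exact fun h => σσ2 d h.symm
    · simp only [Finset.mem_insert, Finset.mem_singleton, not_or]
      exact ⟨fun h => M.σ1 d h.symm, fun h => σσ1 d h.symm⟩
  refine Eq.trans (Finset.sum_congr ?_ (fun _ _ => rfl)) hs
  ext x
  simp only [Finset.mem_filter, Finset.mem_univ, true_and, Finset.mem_insert,
    Finset.mem_singleton]
  constructor
  · exact cu_same_cases M
  · have e1 : M.permσ.SameCycle d (M.σ d) :=
      Equiv.Perm.sameCycle_apply_right.mpr (Equiv.Perm.SameCycle.refl _ _)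
    have e2 : M.permσ.SameCycle d (M.σ (M.σ d)) :=
      Equiv.Perm.sameCycle_apply_right.mpr e1
    rintro (rfl | rfl | rfl)
    · exact Equiv.Perm.SameCycle.refl _ _
    · exact e1
    · exact e2

/-- the darts of the vertex of `v` -/
def cuV (M : CubicMap D) (v : D) : Finset D := {v, M.σ v, M.σ (M.σ v)}

omit [Fintype D] in
theorem cu_mem {v x : D} : x ∈ M.cuV v ↔ x = v ∨ x = M.σ v ∨ x = M.σ (M.σ v) := by
  simp [cuV]

omit [Fintype D] in
theorem cu_card (v : D) : (M.cuV v).card = 3 := by
  unfold cuV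
  rw [Finset.card_insert_of_notMem, Finset.card_insert_of_notMem, Finset.card_singleton]
  · simp only [Finset.mem_singleton]
    exact fun h => σσ2 v h.symm
  · simp only [Finset.mem_insert, Finset.mem_singleton, not_or]
    exact ⟨fun h => M.σ1 v h.symm, fun h => σσ1 v h.symm⟩

omit [Fintype D] in
theorem cu_self (v : D) : v ∈ M.cuV v := cu_mem.mpr (Or.inl rfl)

omit [Fintype D] in
theorem cu_σ {v x : D} (h : x ∈ M.cuV v) : M.σ x ∈ M.cuV v := by
  rw [cu_mem] at h ⊢
  rcases h with rfl | rfl | rfl
  · right; left; rfl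
  · right; right; rfl
  · left; exact M.σ3 _

omit [Fintype D] in
theorem cu_σ' {v x : D} (h : M.σ x ∈ M.cuV v) : x ∈ M.cuV v := by
  have := cu_σ (cu_σ h)
  rwa [M.σ3] at this

omit [Fintype D] in
theorem cu_disj {v w : D} (h : w ∉ M.cuV v) : Disjoint (M.cuV v) (M.cuV w) := by
  rw [Finset.disjoint_left]
  intro x hx hx'
  rw [cu_mem] at hx'
  rcases hx' with rfl | rfl | rfl
  · exact h hx
  · exact h (cu_σ' hx)
  · exact h (cu_σ' (cu_σ' hx))

theorem cu_noloop1 (hC : M.C4) (hn : 12 ≤ Fintype.card D) (x : D) : M.α x ≠ M.σ x := by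
  intro hx
  set y := M.σ (M.σ x) with hy
  set w := M.α y with hw
  have hwy : M.α w = y := by rw [hw, M.α2]
  have hwx : w ∉ M.cuV x := by
    rw [cu_mem]
    rintro (h | h | h)
    · have : y = M.σ x := by rw [← hwy, h, hx]
      exact σσ2 x this
    · have : y = x := by rw [← hwy, h, ← hx, M.α2]
      exact σσ1 x this
    · exact M.α1 y (by rw [← hw, h])
  have hd := cu_disj hwx
  have hcard : (M.cuV x ∪ M.cuV w).card = 6 := by
    rw [Finset.card_union_of_disjoint hd, cu_card, cu_card]
  have h4 := hC (M.cuV x ∪ M.cuV w) (by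
    intro z hz
    rw [Finset.mem_union] at hz ⊢
    exact hz.imp cu_σ cu_σ) hcard.ge (by
    rw [Finset.card_compl, hcard]; omega)
  have hsub : (M.cuV x ∪ M.cuV w).filter (fun z => M.α z ∉ M.cuV x ∪ M.cuV w) ⊆
      {M.σ w, M.σ (M.σ w)} := by
    intro z hz
    rw [Finset.mem_filter, Finset.mem_union, Finset.mem_union, not_or] at hz
    obtain ⟨hz1, hz2, hz3⟩ := hz
    rw [Finset.mem_insert, Finset.mem_singleton]
    rcases hz1 with hz1 | hz1
    · exfalso
      rw [cu_mem] at hz1
      rcases hz1 with rfl | rfl | rfl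
      · exact hz2 (by rw [hx]; exact cu_σ (cu_self _))
      · exact hz2 (by rw [← hx, M.α2]; exact cu_self _)
      · exact hz3 (cu_self _)
    · rw [cu_mem] at hz1
      rcases hz1 with h | h | h
      · exfalso
        apply hz2
        rw [h, hwy, hy]
        exact cu_σ (cu_σ (cu_self _))
      · left; exact h
      · right; exact h
  have h5 := (Finset.card_le_card hsub).trans Finset.card_le_two
  omega

theorem noloop (hC : M.C4) (hn : 12 ≤ Fintype.card D) (x : D) :
    M.α x ≠ M.σ x ∧ M.α x ≠ M.σ (M.σ x) := by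
  refine ⟨cu_noloop1 hC hn x, fun h => ?_⟩
  apply cu_noloop1 hC hn (M.σ (M.σ x))
  rw [M.σ3, ← h, M.α2]

theorem cu_noloop (hC : M.C4) (hn : 12 ≤ Fintype.card D) {v z : D} (hz : z ∈ M.cuV v) :
    M.α z ∉ M.cuV v := by
  intro h
  have h0 := M.α1 z
  obtain ⟨h1, h2⟩ := noloop hC hn z
  rw [cu_mem] at hz h
  rcases hz with rfl | rfl | rfl
  · rcases h with h | h | h
    · exact h0 h
    · exact h1 h
    · exact h2 h
  · rw [M.σ3] at h2
    rcases h with h | h | h
    · exact h2 h
    · exact h0 h
    · exact h1 h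
  · rw [M.σ3] at h1 h2
    rcases h with h | h | h
    · exact h1 h
    · exact h2 h
    · exact h0 h

omit [Fintype D] in
/-- a small `σ`-closed set is a vertex -/
theorem cu_single (A : Finset D) (hA : ∀ x ∈ A, M.σ x ∈ A) (hc : A.card < 6) {v : D}
    (hv : v ∈ A) : A = M.cuV v := by
  have hsub : ∀ u ∈ A, M.cuV u ⊆ A := by
    intro u hu x hx
    rw [cu_mem] at hx
    rcases hx with rfl | rfl | rfl
    · exact hu
    · exact hA _ hu
    · exact hA _ (hA _ hu)
  apply Finset.Subset.antisymm _ (hsub v hv)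
  intro u hu
  by_contra hcon
  have h1 := Finset.card_le_card (Finset.union_subset (hsub v hv) (hsub u hu))
  rw [Finset.card_union_of_disjoint (cu_disj hcon), cu_card, cu_card] at h1
  omega

omit [Fintype D] [DecidableEq D] in
theorem cu_zmod (a : ZMod 2) : a = 0 ∨ a = 1 := by
  revert a; decide

open Classical in
theorem cu_cut (hM : M.Genus0) (hC : M.C4) (hn : 12 ≤ Fintype.card D) (S : Finset D)
    (hne : S.Nonempty) (hα : ∀ x ∈ S, M.α x ∈ S) (hc : S.card ≤ 6)
    (hev : ∀ d, ∑ x ∈ S, (if M.Fc d x then (1 : ZMod 2) else 0) = 0) :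
    6 ≤ S.card ∧ ∃ v, (∀ x ∈ M.cuV v, x ∈ S) ∧ ∀ x ∈ S, x ∈ M.cuV v ∨ M.α x ∈ M.cuV v := by
  have hα' : ∀ x, M.α x ∈ S ↔ x ∈ S := fun x =>
    ⟨fun h => by have := hα _ h; rwa [M.α2] at this, hα x⟩
  have hfp : M.face * M.permα = M.permσ := by
    ext x
    change M.σ (M.α (M.α x)) = M.σ x
    rw [M.α2]
  obtain ⟨k, hk1, hk2⟩ := planar_boundary M.face M.permα M.α2 M.α1
    (by
      intro T hT hcl
      apply hM.1 T hT
      intro d hd
      have h1 := (hcl _ (hcl d hd).2).1
      refine ⟨?_, (hcl d hd).2⟩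
      change M.σ (M.α (M.α d)) ∈ T at h1
      rwa [M.α2] at h1)
    (by rw [hfp, add_comm]; exact hM.2)
    (fun x => if x ∈ S then 1 else 0)
    (by
      intro d
      change (if M.α d ∈ S then (1 : ZMod 2) else 0) = if d ∈ S then 1 else 0
      simp only [hα'])
    (by
      intro d
      refine Eq.trans ?_ (hev d)
      rw [Finset.sum_filter]
      have hr : ∑ x ∈ S, (if M.Fc d x then (1 : ZMod 2) else 0) =
          ∑ x, if x ∈ S then (if M.Fc d x then (1 : ZMod 2) else 0) else 0 := by
        rw [← Finset.sum_filter (fun x => x ∈ S)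
          (fun x => if M.Fc d x then (1 : ZMod 2) else 0)]
        apply Finset.sum_congr _ (fun _ _ => rfl)
        ext x; simp
      rw [hr]
      apply Finset.sum_congr rfl
      intro x _
      unfold Fc
      by_cases h1 : M.face.SameCycle d x <;> by_cases h2 : x ∈ S <;> simp [h1, h2])
  have hkσ : ∀ d, k (M.σ d) = k d := by
    intro d
    have h1 := hk1 d
    change k (M.σ (M.α (M.α d))) = k d at h1
    rwa [M.α2] at h1
  have hS : ∀ x, x ∈ S ↔ k x ≠ k (M.α x) := by
    intro x
    have h1 : (if x ∈ S then (1 : ZMod 2) else 0) = k x + k (M.α x) := hk2 x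
    by_cases h : x ∈ S
    · rw [if_pos h] at h1
      refine ⟨fun _ he => ?_, fun _ => h⟩
      rw [he] at h1
      rcases cu_zmod (k (M.α x)) with h2 | h2 <;> rw [h2] at h1 <;> revert h1 <;> decide
    · rw [if_neg h] at h1
      refine ⟨fun h' => absurd h' h, fun he => ?_⟩
      exfalso
      apply he
      rcases cu_zmod (k x) with h2 | h2 <;> rcases cu_zmod (k (M.α x)) with h3 | h3 <;>
        rw [h2, h3] at h1 ⊢ <;> revert h1 <;> decide
  -- a set `A` on which `k` is constant
  have main : ∀ a : ZMod 2, ∀ A : Finset D, (∀ x, x ∈ A ↔ k x = a) → A.card < 6 →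
      6 ≤ S.card ∧ ∃ v, (∀ x ∈ M.cuV v, x ∈ S) ∧ ∀ x ∈ S, x ∈ M.cuV v ∨ M.α x ∈ M.cuV v := by
    intro a A hA hcA
    have hAS : ∀ x ∈ S, x ∈ A ∨ M.α x ∈ A := by
      intro x hx
      rw [hA, hA]
      have h1 := (hS x).mp hx
      rcases cu_zmod (k x) with h2 | h2 <;> rcases cu_zmod (k (M.α x)) with h3 | h3 <;>
        rcases cu_zmod a with h4 | h4 <;> simp_all
    obtain ⟨s, hs⟩ := hne
    obtain ⟨v, hv⟩ : ∃ v, v ∈ A := by
      rcases hAS s hs with h | h
      · exact ⟨_, h⟩
      · exact ⟨_, h⟩
    have hAv : A = M.cuV v := cu_single A (by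
      intro x hx
      rw [hA] at hx ⊢
      rw [hkσ, hx]) hcA hv
    have hVS : ∀ x ∈ M.cuV v, x ∈ S := by
      intro x hx
      rw [hS]
      intro he
      have h1 := cu_noloop hC hn hx
      rw [← hAv, hA] at hx h1
      exact h1 (he ▸ hx)
    refine ⟨?_, v, hVS, fun x hx => ?_⟩
    · have h1 : M.cuV v ∪ (M.cuV v).image M.α ⊆ S := by
        apply Finset.union_subset hVS
        intro x hx
        rw [Finset.mem_image] at hx
        obtain ⟨z, hz, rfl⟩ := hx
        exact hα _ (hVS z hz)
      have h2 : Disjoint (M.cuV v) ((M.cuV v).image M.α) := by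
        rw [Finset.disjoint_left]
        intro x hx hx'
        rw [Finset.mem_image] at hx'
        obtain ⟨z, hz, rfl⟩ := hx'
        exact cu_noloop hC hn hz hx
      have h3 := Finset.card_le_card h1
      rw [Finset.card_union_of_disjoint h2, Finset.card_image_of_injective _ αinj, cu_card] at h3
      exact h3
    · rw [← hAv]
      exact hAS x hx
  set A := Finset.univ.filter (fun x => k x = 1) with hAdef
  have hA1 : ∀ x, x ∈ A ↔ k x = 1 := by intro x; simp [hAdef]
  have hA0 : ∀ x, x ∈ Aᶜ ↔ k x = 0 := by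
    intro x
    rw [Finset.mem_compl, hA1]
    rcases cu_zmod (k x) with h | h <;> simp [h]
  rcases Nat.lt_or_ge A.card 6 with h1 | h1
  · exact main 1 A hA1 h1
  rcases Nat.lt_or_ge Aᶜ.card 6 with h2 | h2
  · exact main 0 Aᶜ hA0 h2
  exfalso
  have h3 := hC A (fun x hx => by rw [hA1] at hx ⊢; rw [hkσ, hx]) h1 h2
  set B := A.filter (fun x => M.α x ∉ A) with hB
  have hBS : B ∪ B.image M.α ⊆ S := by
    apply Finset.union_subset
    · intro x hx
      rw [hB, Finset.mem_filter, hA1, hA1] at hx
      rw [hS, hx.1]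
      exact fun h => hx.2 h.symm
    · intro x hx
      rw [Finset.mem_image] at hx
      obtain ⟨z, hz, rfl⟩ := hx
      rw [hB, Finset.mem_filter, hA1, hA1] at hz
      rw [hS, M.α2, hz.1]
      exact hz.2
  have hBd : Disjoint B (B.image M.α) := by
    rw [Finset.disjoint_left]
    intro x hx hx'
    rw [Finset.mem_image] at hx'
    obtain ⟨z, hz, rfl⟩ := hx'
    rw [hB, Finset.mem_filter] at hx hz
    exact hz.2 hx.1
  have h4 := Finset.card_le_card hBS
  rw [Finset.card_union_of_disjoint hBd, Finset.card_image_of_injective _ αinj] at h4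
  omega

omit [Fintype D] [DecidableEq D] in
theorem cu_fσ (x : D) : M.Fc (M.α x) (M.σ x) := by
  have h : M.face (M.α x) = M.σ x := by
    rw [M.face_apply, M.α2]
  unfold Fc
  rw [← h]
  exact Equiv.Perm.sameCycle_apply_right.mpr (Equiv.Perm.SameCycle.refl _ _)

omit [Fintype D] [DecidableEq D] in
theorem cu_fσα (x : D) : M.Fc x (M.σ (M.α x)) := by
  have h := cu_fσ (M := M) (M.α x)
  rwa [M.α2] at h

omit [Fintype D] [DecidableEq D] in
theorem cu_symm {x y : D} (h : M.Fc x y) : M.Fc y x := Equiv.Perm.SameCycle.symm h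

omit [Fintype D] [DecidableEq D] in
theorem cu_trans {x y z : D} (h : M.Fc x y) (h' : M.Fc y z) : M.Fc x z :=
  Equiv.Perm.SameCycle.trans h h'

omit [Fintype D] [DecidableEq D] in
theorem cu_right {x y d : D} (h : M.Fc x y) : M.Fc d x ↔ M.Fc d y :=
  ⟨fun h' => cu_trans h' h, fun h' => cu_trans h' (cu_symm h)⟩

/-- no face is on both sides of an edge -/
theorem adj0 (hM : M.Genus0) (hC : M.C4) (hn : 12 ≤ Fintype.card D) (x : D) :
    ¬ M.Fc x (M.α x) := by
  classical
  intro hx
  have hne : x ≠ M.α x := fun h => M.α1 x h.symm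
  have hcard : ({x, M.α x} : Finset D).card = 2 := Finset.card_pair hne
  have h1 := (cu_cut hM hC hn {x, M.α x} ⟨x, by simp⟩ (by
    intro z hz
    simp only [Finset.mem_insert, Finset.mem_singleton] at hz ⊢
    rcases hz with rfl | rfl
    · right; rfl
    · left; exact M.α2 _) (by omega) (by
    intro d
    rw [Finset.sum_pair hne]
    by_cases h : M.Fc d x
    · rw [if_pos h, if_pos ((cu_right hx).mp h)]; decide
    · rw [if_neg h, if_neg (fun h' => h ((cu_right hx).mpr h'))]; decide)).1
  omega

/-- two faces share at most one edge -/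
theorem adj1 (hM : M.Genus0) (hC : M.C4) (hn : 12 ≤ Fintype.card D) {x y : D} (h1 : M.Fc x y)
    (h2 : M.Fc (M.α x) (M.α y)) : y = x := by
  classical
  by_contra hyx
  have n1 : y ≠ M.α x := by
    rintro rfl
    exact adj0 hM hC hn x h1
  have n2 : M.α y ≠ x := by
    intro h
    exact n1 (by rw [← h, M.α2])
  have n3 : M.α y ≠ M.α x := fun h => hyx (αinj h)
  have hS1 : M.α y ∉ ({} : Finset D) := by simp
  have hS2 : y ∉ ({M.α y} : Finset D) := by
    simp only [Finset.mem_singleton]; exact fun h => M.α1 y h.symm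
  have hS3 : M.α x ∉ ({y, M.α y} : Finset D) := by
    simp only [Finset.mem_insert, Finset.mem_singleton, not_or]
    exact ⟨fun h => n1 h.symm, fun h => n3 h.symm⟩
  have hS4 : x ∉ ({M.α x, y, M.α y} : Finset D) := by
    simp only [Finset.mem_insert, Finset.mem_singleton, not_or]
    exact ⟨fun h => M.α1 x h.symm, fun h => hyx h.symm, fun h => n2 h.symm⟩
  have hcard : ({x, M.α x, y, M.α y} : Finset D).card = 4 := by
    rw [Finset.card_insert_of_notMem hS4, Finset.card_insert_of_notMem hS3,
      Finset.card_insert_of_notMem hS2, Finset.card_singleton]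
  have h3 := (cu_cut hM hC hn {x, M.α x, y, M.α y} ⟨x, by simp⟩ (by
    intro z hz
    simp only [Finset.mem_insert, Finset.mem_singleton] at hz ⊢
    rcases hz with rfl | rfl | rfl | rfl
    · right; left; rfl
    · left; exact M.α2 _
    · right; right; right; rfl
    · right; right; left; exact M.α2 _) (by omega) (by
    intro d
    rw [Finset.sum_insert hS4, Finset.sum_insert hS3, Finset.sum_insert hS2,
      Finset.sum_singleton]
    have e1 := cu_right (d := d) h1
    have e2 := cu_right (d := d) h2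
    by_cases h : M.Fc d x <;> by_cases h' : M.Fc d (M.α x)
    · rw [if_pos h, if_pos h', if_pos (e1.mp h), if_pos (e2.mp h')]; decide
    · rw [if_pos h, if_neg h', if_pos (e1.mp h), if_neg (fun a => h' (e2.mpr a))]; decide
    · rw [if_neg h, if_pos h', if_neg (fun a => h (e1.mpr a)), if_pos (e2.mp h')]; decide
    · rw [if_neg h, if_neg h', if_neg (fun a => h (e1.mpr a)),
        if_neg (fun a => h' (e2.mpr a))]; decide)).1
  omega

/-- three pairwise adjacent faces meet in a vertex -/
theorem adj2 (hM : M.Genus0) (hC : M.C4) (hn : 12 ≤ Fintype.card D) {x y z : D}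
    (h1 : M.Fc (M.α x) y) (h2 : M.Fc (M.α y) z) (h3 : M.Fc (M.α z) x) :
    (M.σ x = y ∧ M.σ y = z) ∨ (M.σ (M.α x) = M.α z ∧ M.σ (M.α z) = M.α y) := by
  classical
  have A0 : ∀ w, ¬ M.Fc w (M.α w) := adj0 hM hC hn
  have A0' : ∀ w, ¬ M.Fc (M.α w) w := fun w h => A0 w (cu_symm h)
  have nxy : x ≠ y := by rintro rfl; exact A0' _ h1
  have nyz : y ≠ z := by rintro rfl; exact A0' _ h2
  have nzx : z ≠ x := by rintro rfl; exact A0' _ h3
  have nyx' : y ≠ M.α x := by
    rintro rfl
    rw [M.α2] at h2
    exact A0' z (cu_trans h3 h2)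
  have nzy' : z ≠ M.α y := by
    rintro rfl
    rw [M.α2] at h3
    exact A0' x (cu_trans h1 h3)
  have nxz' : x ≠ M.α z := by
    rintro rfl
    rw [M.α2] at h1
    exact A0' y (cu_trans h2 h1)
  have nxy' : x ≠ M.α y := fun h => nyx' (by rw [h, M.α2])
  have nyz' : y ≠ M.α z := fun h => nzy' (by rw [h, M.α2])
  have nzx' : z ≠ M.α x := fun h => nxz' (by rw [h, M.α2])
  have nxy2 : M.α x ≠ M.α y := fun h => nxy (αinj h)
  have nyz2 : M.α y ≠ M.α z := fun h => nyz (αinj h)
  have nzx2 : M.α z ≠ M.α x := fun h => nzx (αinj h)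
  have S2 : z ∉ ({M.α z} : Finset D) := by
    simp only [Finset.mem_singleton]; exact fun h => M.α1 z h.symm
  have S3 : M.α y ∉ ({z, M.α z} : Finset D) := by
    simp only [Finset.mem_insert, Finset.mem_singleton, not_or]
    exact ⟨nzy'.symm, nyz2⟩
  have S4 : y ∉ ({M.α y, z, M.α z} : Finset D) := by
    simp only [Finset.mem_insert, Finset.mem_singleton, not_or]
    exact ⟨fun h => M.α1 y h.symm, nyz, nyz'⟩
  have S5 : M.α x ∉ ({y, M.α y, z, M.α z} : Finset D) := by
    simp only [Finset.mem_insert, Finset.mem_singleton, not_or]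
    exact ⟨nyx'.symm, nxy2, nzx'.symm, nzx2.symm⟩
  have S6 : x ∉ ({M.α x, y, M.α y, z, M.α z} : Finset D) := by
    simp only [Finset.mem_insert, Finset.mem_singleton, not_or]
    exact ⟨fun h => M.α1 x h.symm, nxy, nxy', nzx.symm, nxz'⟩
  have hcard : ({x, M.α x, y, M.α y, z, M.α z} : Finset D).card = 6 := by
    rw [Finset.card_insert_of_notMem S6, Finset.card_insert_of_notMem S5,
      Finset.card_insert_of_notMem S4, Finset.card_insert_of_notMem S3,
      Finset.card_insert_of_notMem S2, Finset.card_singleton]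
  obtain ⟨-, v, hV, hV'⟩ := cu_cut hM hC hn {x, M.α x, y, M.α y, z, M.α z} ⟨x, by simp⟩ (by
    intro w hw
    simp only [Finset.mem_insert, Finset.mem_singleton] at hw ⊢
    rcases hw with rfl | rfl | rfl | rfl | rfl | rfl <;> simp [M.α2]) (by omega) (by
    intro d
    rw [Finset.sum_insert S6, Finset.sum_insert S5, Finset.sum_insert S4,
      Finset.sum_insert S3, Finset.sum_insert S2, Finset.sum_singleton]
    have e1 : (if M.Fc d (M.α x) then (1 : ZMod 2) else 0) = if M.Fc d y then 1 else 0 := by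
      simp only [cu_right h1]
    have e2 : (if M.Fc d (M.α y) then (1 : ZMod 2) else 0) = if M.Fc d z then 1 else 0 := by
      simp only [cu_right h2]
    have e3 : (if M.Fc d (M.α z) then (1 : ZMod 2) else 0) = if M.Fc d x then 1 else 0 := by
      simp only [cu_right h3]
    rw [e1, e2, e3]
    generalize (if M.Fc d x then (1 : ZMod 2) else 0) = a
    generalize (if M.Fc d y then (1 : ZMod 2) else 0) = b
    generalize (if M.Fc d z then (1 : ZMod 2) else 0) = c
    revert a b c
    decide)
  have hmem : ∀ w ∈ M.cuV v, w = x ∨ w = M.α x ∨ w = y ∨ w = M.α y ∨ w = z ∨ w = M.α z := by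
    intro w hw
    have := hV w hw
    simpa only [Finset.mem_insert, Finset.mem_singleton] using this
  have NL := noloop hC hn
  rcases hV' x (by simp) with hx | hx
  · left
    have f1 := cu_fσ (M := M) x
    have g1 : M.σ x = y := by
      rcases hmem _ (cu_σ hx) with h | h | h | h | h | h
      · exact absurd h (M.σ1 x)
      · exact absurd h.symm (NL x).1
      · exact h
      · rw [h] at f1
        exact absurd (cu_trans (cu_symm h1) f1) (A0 y)
      · rw [h] at f1
        exact absurd (cu_trans (cu_trans (cu_symm h1) f1) (cu_symm h2)) (A0 y)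
      · rw [h] at f1
        exact absurd (cu_trans f1 h3) (A0' x)
    refine ⟨g1, ?_⟩
    have hy : y ∈ M.cuV v := g1 ▸ cu_σ hx
    have f2 := cu_fσ (M := M) y
    rcases hmem _ (cu_σ hy) with h | h | h | h | h | h
    · rw [h] at f2
      exact absurd (cu_trans (cu_trans h3 (cu_symm f2)) h2) (A0' z)
    · rw [h] at f2
      exact absurd (cu_trans f2 h1) (A0' y)
    · exact absurd h (M.σ1 y)
    · exact absurd h.symm (NL y).1
    · exact h
    · rw [h] at f2
      exact absurd (cu_trans (cu_symm f2) h2) (A0' z)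
  · right
    have f1 := cu_fσα (M := M) x
    have g1 : M.σ (M.α x) = M.α z := by
      rcases hmem _ (cu_σ hx) with h | h | h | h | h | h
      · exact absurd (by rw [h, M.α2]) (NL (M.α x)).1
      · exact absurd h (M.σ1 _)
      · rw [h] at f1
        exact absurd (cu_trans f1 (cu_symm h1)) (A0 x)
      · rw [h] at f1
        exact absurd (cu_trans (cu_trans h3 f1) h2) (A0' z)
      · rw [h] at f1
        exact absurd (cu_trans h3 f1) (A0' z)
      · exact h
    refine ⟨g1, ?_⟩
    have hz : M.α z ∈ M.cuV v := g1 ▸ cu_σ hx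
    have f2 := cu_fσα (M := M) z
    rcases hmem _ (cu_σ hz) with h | h | h | h | h | h
    · rw [h] at f2
      exact absurd (cu_trans h3 (cu_symm f2)) (A0' z)
    · rw [h] at f2
      exact absurd (cu_trans (cu_trans h2 f2) h1) (A0' y)
    · rw [h] at f2
      exact absurd (cu_trans h2 f2) (A0' y)
    · exact h
    · exact absurd (by rw [h, M.α2]) (NL (M.α z)).1
    · exact absurd h (M.σ1 _)

end Pool.H64.NC.CubicMap
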