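import Pool.Agent.Helper64.NC.Pack

/-!
NC-CO. Correctness of `cval` and of the cocycle check `cocK`.

`extO o` gives the digits of the open type `o` (`15` for the open leg), `pack (extO o) K` is its
code.  You will need `dig (pack f n) i = f i` for `i < n` if all values are `< 16` (this is
`dig_pack` of the file `St/Dfs.lean`, being proved in parallel; reprove it here under another name
if you like, or import that file) and the effect on `pack f K` of changing one value:
`pack (update f x v) K + (f x <<< (4 x)) = pack f K + (v <<< (4 x))` for `x < K`.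
`coc_sound`: if all three values of `find` are `0` there is nothing to prove.  Otherwise one of the
three codes is a key of `c` (lemma: `c.find κ ≠ 0 → κ ∈ c.keys`), and the check `cocK` at this key,
with `x` the open leg and `a < b` the two other legs among `i, j, k`, is exactly the claim (up to
the order of the three summands); the condition in `cocAB` holds by `hsep`. -/

namespace Pool.H64.NC.Code

theorem co_pack_lt {f : ℕ → ℕ} {n : ℕ} (h : ∀ i, i < n → f i < 16) : pack f n < 2 ^ (4 * n) := by
  induction n with
  | zero => simp [pack]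
  | succ n ih =>
    have h1 := ih (fun i hi => h i (Nat.lt_succ_of_lt hi))
    have h2 := h n (Nat.lt_succ_self n)
    rw [pack, Nat.shiftLeft_eq]
    have h3 : 2 ^ (4 * (n + 1)) = 16 * 2 ^ (4 * n) := by
      rw [Nat.mul_add, pow_add]
      ring
    have h4 : f n * 2 ^ (4 * n) ≤ 15 * 2 ^ (4 * n) := Nat.mul_le_mul_right _ (by omega)
    omega

theorem co_dig_pack {f : ℕ → ℕ} {n i : ℕ} (h : ∀ i, i < n → f i < 16) (hi : i < n) :
    dig (pack f n) i = f i := by
  induction n with
  | zero => omega
  | succ n ih =>
    unfold dig at ih ⊢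
    have h0 : ∀ i, i < n → f i < 16 := fun i hi => h i (Nat.lt_succ_of_lt hi)
    have hlt := co_pack_lt h0
    rw [pack, Nat.shiftLeft_eq, Nat.shiftRight_eq_div_pow]
    rcases Nat.lt_succ_iff_lt_or_eq.1 hi with h1 | h1
    · have h2 := ih h0 h1
      rw [Nat.shiftRight_eq_div_pow] at h2
      have h3 : 2 ^ (4 * n) = 2 ^ (4 * i) * (16 * 2 ^ (4 * (n - i - 1))) := by
        rw [show (16 : ℕ) = 2 ^ 4 by norm_num, ← pow_add, ← pow_add]
        congr 1
        omega
      have h4 : pack f n + f n * 2 ^ (4 * n) =
          pack f n + 2 ^ (4 * i) * (16 * (f n * 2 ^ (4 * (n - i - 1)))) := by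
        rw [h3]
        ring
      rw [h4, Nat.add_mul_div_left _ _ (by positivity), Nat.add_mul_mod_self_left]
      exact h2
    · subst h1
      rw [Nat.add_mul_div_right _ _ (by positivity), Nat.div_eq_of_lt hlt, zero_add,
        Nat.mod_eq_of_lt (h _ hi)]

theorem co_pack_congr {f g : ℕ → ℕ} {n : ℕ} (h : ∀ i, i < n → f i = g i) :
    pack f n = pack g n := by
  induction n with
  | zero => rfl
  | succ n ih =>
    rw [pack, pack, ih (fun i hi => h i (Nat.lt_succ_of_lt hi)), h n (Nat.lt_succ_self n)]

theorem co_pack_update {f : ℕ → ℕ} {n x : ℕ} (v : ℕ) (hx : x < n) :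
    pack (Function.update f x v) n + f x * 2 ^ (4 * x) = pack f n + v * 2 ^ (4 * x) := by
  induction n with
  | zero => omega
  | succ n ih =>
    rw [pack, pack, Nat.shiftLeft_eq, Nat.shiftLeft_eq]
    rcases Nat.lt_succ_iff_lt_or_eq.1 hx with h1 | h1
    · have h2 := ih h1
      rw [Function.update_of_ne (by omega : n ≠ x)]
      omega
    · subst h1
      have h2 : pack (Function.update f x v) x = pack f x :=
        co_pack_congr (fun i hi => Function.update_of_ne (by omega) _ _)
      rw [Function.update_self, h2]
      omega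

theorem co_sub {a b X : ℕ} (h : a ≤ b) : (b - a) * X + a * X = b * X := by
  rw [← Nat.add_mul, Nat.sub_add_cancel h]

theorem co_ext0 {K : ℕ} (t : Fin K → Fin K) (x : Fin K) : ext0 t x = (t x).val := by
  unfold ext0
  rw [dif_pos x.isLt]

theorem co_ext0_lt {K : ℕ} (hK : K ≤ 15) (t : Fin K → Fin K) (i : ℕ) : ext0 t i < 16 := by
  unfold ext0
  split_ifs with h
  · have := (t ⟨i, h⟩).isLt
    omega
  · omega

theorem co_extO_none {K : ℕ} {o : Fin K → Option (Fin K)} {x : Fin K} (h : o x = none) :
    extO o x = 15 := by
  unfold extO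
  rw [dif_pos x.isLt]
  simp only [Fin.eta]
  rw [h]

theorem co_extO_some {K : ℕ} {o : Fin K → Option (Fin K)} {x y : Fin K} (h : o x = some y) :
    extO o x = y.val := by
  unfold extO
  rw [dif_pos x.isLt]
  simp only [Fin.eta]
  rw [h]

theorem co_extO_lt {K : ℕ} (hK : K ≤ 15) (o : Fin K → Option (Fin K)) (i : ℕ) :
    extO o i < 16 := by
  unfold extO
  split_ifs with h
  · split
    · omega
    · next j hj =>
      have := j.isLt
      omega
  · omega

theorem cval_eq {K : ℕ} (hK : K ≤ 15) (c : Tree) (t : Fin K → Fin K) (ht : ∀ i, t (t i) = i)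
    (x : Fin K) : cval c (pack (ext0 t) K) x = c.find (pack (extO (opn t x)) K) := by
  have hx := x.isLt
  have hy := (t x).isLt
  have hd : dig (pack (ext0 t) K) x = (t x).val := by
    rw [co_dig_pack (fun i _ => co_ext0_lt hK t i) hx, co_ext0]
  unfold cval
  simp only [hd, Nat.shiftLeft_eq]
  by_cases hxy : t x = x
  · have h1 : Nat.beq (t x).val x.val = true := by
      rw [hxy]
      exact Nat.beq_refl _
    rw [h1, cond_true]
    congr 1
    have h2 : pack (extO (opn t x)) K = pack (Function.update (ext0 t) x 15) K := by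
      apply co_pack_congr
      intro i hi
      by_cases h : i = x.val
      · subst h
        rw [Function.update_self, co_extO_none]
        unfold opn
        rw [if_pos rfl]
      · rw [Function.update_of_ne h]
        have h3 : (⟨i, hi⟩ : Fin K) ≠ x := fun h' => h (congrArg Fin.val h')
        have h4 : opn t x ⟨i, hi⟩ = some (t ⟨i, hi⟩) := by
          unfold opn
          rw [if_neg h3, hxy, if_neg h3]
        have h5 := co_extO_some h4
        have h6 := co_ext0 t ⟨i, hi⟩
        exact h5.trans h6.symm
    have h3 := co_pack_update (f := ext0 t) 15 hx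
    rw [co_ext0, hxy] at h3
    have h4 := co_sub (a := x.val) (b := 15) (X := 2 ^ (4 * x.val)) (by omega)
    rw [h2]
    omega
  · have hne : (t x).val ≠ x.val := fun h' => hxy (Fin.ext h')
    have h1 : Nat.beq (t x).val x.val = false := by
      rw [Bool.eq_false_iff]
      intro h'
      exact hne (Nat.eq_of_beq_eq_true h')
    rw [h1, cond_false]
    congr 1
    have h2 : pack (extO (opn t x)) K =
        pack (Function.update (Function.update (ext0 t) x 15) (t x) (t x)) K := by
      apply co_pack_congr
      intro i hi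
      by_cases h : i = (t x).val
      · subst h
        rw [Function.update_self, co_extO_some (y := t x)]
        unfold opn
        rw [if_neg hxy, if_pos rfl]
      · rw [Function.update_of_ne h]
        by_cases h' : i = x.val
        · subst h'
          rw [Function.update_self, co_extO_none]
          unfold opn
          rw [if_pos rfl]
        · rw [Function.update_of_ne h']
          have h3 : (⟨i, hi⟩ : Fin K) ≠ x := fun h'' => h' (congrArg Fin.val h'')
          have h3' : (⟨i, hi⟩ : Fin K) ≠ t x := fun h'' => h (congrArg Fin.val h'')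
          have h4 : opn t x ⟨i, hi⟩ = some (t ⟨i, hi⟩) := by
            unfold opn
            rw [if_neg h3, if_neg h3']
          have h5 := co_extO_some h4
          have h6 := co_ext0 t ⟨i, hi⟩
          exact h5.trans h6.symm
    have h3 := co_pack_update (f := ext0 t) 15 hx
    have h4 := co_pack_update (f := Function.update (ext0 t) x 15) (t x).val hy
    rw [co_ext0] at h3
    rw [Function.update_of_ne hne, co_ext0, ht] at h4
    have h5 := co_sub (a := (t x).val) (b := 15) (X := 2 ^ (4 * x.val)) (by omega)
    rw [h2]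
    omega

theorem co_find {c : Tree} {κ : ℕ} (h : c.find κ ≠ 0) : κ ∈ c.keys := by
  induction c with
  | leaf => exact absurd rfl h
  | node l k v r ihl ihr =>
    rw [Tree.keys, List.mem_append, List.mem_cons]
    rw [Tree.find] at h
    by_cases h1 : Nat.beq κ k = true
    · exact Or.inr (Or.inl (Nat.eq_of_beq_eq_true h1))
    · rw [Bool.not_eq_true] at h1
      rw [h1, cond_false] at h
      by_cases h2 : Nat.blt κ k = true
      · rw [h2, cond_true] at h
        exact Or.inl (ihl h)
      · rw [Bool.not_eq_true] at h2
        rw [h2, cond_false] at h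
        exact Or.inr (Or.inr (ihr h))

/-- three updates of the digits -/
theorem co_three {f : ℕ → ℕ} {K x a b : ℕ} (hx : x < K) (ha : a < K) (hb : b < K) (hxa : x ≠ a)
    (hxb : x ≠ b) (hab : a ≠ b) (u v w : ℕ) :
    pack (Function.update (Function.update (Function.update f a u) b v) x w) K +
      f a * 2 ^ (4 * a) + f b * 2 ^ (4 * b) + f x * 2 ^ (4 * x) =
    pack f K + u * 2 ^ (4 * a) + v * 2 ^ (4 * b) + w * 2 ^ (4 * x) := by
  have h1 := co_pack_update (f := f) u ha
  have h2 := co_pack_update (f := Function.update f a u) v hb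
  have h3 := co_pack_update (f := Function.update (Function.update f a u) b v) w hx
  rw [Function.update_of_ne hab.symm] at h2
  rw [Function.update_of_ne hxb, Function.update_of_ne hxa] at h3
  omega

theorem co_key {K : ℕ} (hK : K ≤ 15) (c : Tree) (h : c.keys.all (fun κ => cocK c K κ) = true)
    (t : Fin K → Fin K) (i a b : Fin K) (hia : i ≠ a) (hab : a < b) (hib : i ≠ b)
    (hsep : ∀ l, l < t l → ((l < i ∧ i < t l) ↔ (l < a ∧ a < t l)) ∧
      ((l < i ∧ i < t l) ↔ (l < b ∧ b < t l))) (o oa ob : Fin K → Option (Fin K))
    (ho : ∀ l, o l = if l = i then none else if l = a then some b else if l = b then some a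
      else some (t l))
    (hoa : ∀ l, oa l = if l = a then none else if l = b then some i else if l = i then some b
      else some (t l))
    (hob : ∀ l, ob l = if l = b then none else if l = i then some a else if l = a then some i
      else some (t l))
    (hk : pack (extO o) K ∈ c.keys) :
    c.find (pack (extO o) K) ^^^ (c.find (pack (extO oa) K) ^^^
      c.find (pack (extO ob) K)) = 0 := by
  have hi' := i.isLt
  have ha' := a.isLt
  have hb' := b.isLt
  have hne1 : i.val ≠ a.val := fun h' => hia (Fin.ext h')
  have hne2 : i.val ≠ b.val := fun h' => hib (Fin.ext h')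
  have hlt : a.val < b.val := hab
  have hne3 : a.val ≠ b.val := hlt.ne
  have hdig : ∀ l, l < K → dig (pack (extO o) K) l = extO o l := fun l hl =>
    co_dig_pack (fun i _ => co_extO_lt hK o i) hl
  have fi : extO o i = 15 := co_extO_none (by rw [ho, if_pos rfl])
  have fa : extO o a = b.val := co_extO_some (by rw [ho, if_neg hia.symm, if_pos rfl])
  have fb : extO o b = a.val :=
    co_extO_some (by rw [ho, if_neg hib.symm, if_neg (ne_of_gt hab), if_pos rfl])
  have h1 := List.all_eq_true.1 h _ hk
  unfold cocK at h1
  have h2 := List.all_eq_true.1 h1 i.val (List.mem_range.2 hi')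
  rw [hdig _ hi', fi] at h2
  have h15 : Nat.beq 15 15 = true := Nat.beq_refl _
  rw [h15, cond_true] at h2
  have h3 := List.all_eq_true.1 h2 a.val (List.mem_range.2 ha')
  simp only [hdig _ ha', fa] at h3
  have h4 : Nat.blt a.val b.val = true := by
    rw [Nat.blt_eq]
    exact hlt
  have h5 : Nat.blt b.val 15 = true := by
    rw [Nat.blt_eq]
    omega
  rw [h4, h5, Bool.and_self, cond_true] at h3
  unfold cocAB at h3
  have h6 : (List.range K).all (fun l =>
      let l' := dig (pack (extO o) K) l
      Nat.ble l' l || Nat.beq l' 15 || Nat.beq l a.val || Nat.beq l b.val ||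
        sep i.val a.val b.val l l') = true := by
    rw [List.all_eq_true]
    intro l hl
    rw [List.mem_range] at hl
    simp only [hdig _ hl]
    by_cases e1 : l = a.val
    · have : Nat.beq l a.val = true := by rw [e1]; exact Nat.beq_refl _
      rw [this]
      simp
    by_cases e2 : l = b.val
    · have : Nat.beq l b.val = true := by rw [e2]; exact Nat.beq_refl _
      rw [this]
      simp
    by_cases e3 : l = i.val
    · have : Nat.beq (extO o l) 15 = true := by rw [e3, fi]; exact Nat.beq_refl _
      rw [this]
      simp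
    have n1 : (⟨l, hl⟩ : Fin K) ≠ a := fun h' => e1 (congrArg Fin.val h')
    have n2 : (⟨l, hl⟩ : Fin K) ≠ b := fun h' => e2 (congrArg Fin.val h')
    have n3 : (⟨l, hl⟩ : Fin K) ≠ i := fun h' => e3 (congrArg Fin.val h')
    have fl : extO o l = (t ⟨l, hl⟩).val := by
      have : o ⟨l, hl⟩ = some (t ⟨l, hl⟩) := by rw [ho, if_neg n3, if_neg n1, if_neg n2]
      exact co_extO_some this
    rw [fl]
    by_cases e4 : (t ⟨l, hl⟩).val ≤ l
    · have : Nat.ble (t ⟨l, hl⟩).val l = true := by
        rw [Nat.ble_eq]
        exact e4
      rw [this]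
      simp
    · have hl' : (⟨l, hl⟩ : Fin K) < t ⟨l, hl⟩ := by
        rw [Fin.lt_def]
        exact not_le.1 e4
      obtain ⟨s1, s2⟩ := hsep _ hl'
      have hs : sep i.val a.val b.val l (t ⟨l, hl⟩).val = true := by
        unfold sep
        simp only [Bool.and_eq_true, beq_iff_eq]
        have key : ∀ z : Fin K, (Nat.blt l z.val && Nat.blt z.val (t ⟨l, hl⟩).val) =
            decide ((⟨l, hl⟩ : Fin K) < z ∧ z < t ⟨l, hl⟩) := by
          intro z
          rw [Bool.eq_iff_iff, Bool.and_eq_true, Nat.blt_eq, Nat.blt_eq, decide_eq_true_iff]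
          rfl
        rw [key i, key a, key b]
        exact ⟨decide_eq_decide.2 s1, decide_eq_decide.2 s2⟩
      rw [hs]
      simp
  rw [h6, cond_true] at h3
  have h7 := Nat.eq_of_beq_eq_true h3
  -- the two other codes
  have ea : pack (extO oa) K = pack (Function.update (Function.update (Function.update (extO o)
      a 15) b i) i b) K := by
    apply co_pack_congr
    intro l hl
    by_cases e3 : l = i.val
    · subst e3
      rw [Function.update_self]
      exact co_extO_some (by rw [hoa, if_neg hia, if_neg hib, if_pos rfl])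
    rw [Function.update_of_ne e3]
    by_cases e2 : l = b.val
    · subst e2
      rw [Function.update_self]
      exact co_extO_some (by rw [hoa, if_neg (ne_of_gt hab), if_pos rfl])
    rw [Function.update_of_ne e2]
    by_cases e1 : l = a.val
    · subst e1
      rw [Function.update_self]
      exact co_extO_none (by rw [hoa, if_pos rfl])
    rw [Function.update_of_ne e1]
    have n1 : (⟨l, hl⟩ : Fin K) ≠ a := fun h' => e1 (congrArg Fin.val h')
    have n2 : (⟨l, hl⟩ : Fin K) ≠ b := fun h' => e2 (congrArg Fin.val h')
    have n3 : (⟨l, hl⟩ : Fin K) ≠ i := fun h' => e3 (congrArg Fin.val h')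
    have f1 : extO oa l = (t ⟨l, hl⟩).val := by
      have : oa ⟨l, hl⟩ = some (t ⟨l, hl⟩) := by rw [hoa, if_neg n1, if_neg n2, if_neg n3]
      exact co_extO_some this
    have f2 : extO o l = (t ⟨l, hl⟩).val := by
      have : o ⟨l, hl⟩ = some (t ⟨l, hl⟩) := by rw [ho, if_neg n3, if_neg n1, if_neg n2]
      exact co_extO_some this
    rw [f1, f2]
  have eb : pack (extO ob) K = pack (Function.update (Function.update (Function.update (extO o)
      b 15) a i) i a) K := by
    apply co_pack_congr
    intro l hl
    by_cases e3 : l = i.val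
    · subst e3
      rw [Function.update_self]
      exact co_extO_some (by rw [hob, if_neg hib, if_pos rfl])
    rw [Function.update_of_ne e3]
    by_cases e1 : l = a.val
    · subst e1
      rw [Function.update_self]
      exact co_extO_some (by rw [hob, if_neg (ne_of_lt hab), if_neg hia.symm, if_pos rfl])
    rw [Function.update_of_ne e1]
    by_cases e2 : l = b.val
    · subst e2
      rw [Function.update_self]
      exact co_extO_none (by rw [hob, if_pos rfl])
    rw [Function.update_of_ne e2]
    have n1 : (⟨l, hl⟩ : Fin K) ≠ a := fun h' => e1 (congrArg Fin.val h')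
    have n2 : (⟨l, hl⟩ : Fin K) ≠ b := fun h' => e2 (congrArg Fin.val h')
    have n3 : (⟨l, hl⟩ : Fin K) ≠ i := fun h' => e3 (congrArg Fin.val h')
    have f1 : extO ob l = (t ⟨l, hl⟩).val := by
      have : ob ⟨l, hl⟩ = some (t ⟨l, hl⟩) := by rw [hob, if_neg n2, if_neg n3, if_neg n1]
      exact co_extO_some this
    have f2 : extO o l = (t ⟨l, hl⟩).val := by
      have : o ⟨l, hl⟩ = some (t ⟨l, hl⟩) := by rw [ho, if_neg n3, if_neg n1, if_neg n2]
      exact co_extO_some this
    rw [f1, f2]
  have pa := co_three (f := extO o) hi' ha' hb' hne1 hne2 hne3 15 i.val b.val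
  have pb := co_three (f := extO o) hi' hb' ha' hne2 hne1 hne3.symm 15 i.val a.val
  rw [fa, fb, fi] at pa
  rw [fa, fb, fi] at pb
  have q1 := co_sub (a := b.val) (b := 15) (X := 2 ^ (4 * a.val)) (by omega)
  have q2 := co_sub (a := a.val) (b := 15) (X := 2 ^ (4 * b.val)) (by omega)
  rw [← ea] at pa
  rw [← eb] at pb
  simp only [Nat.shiftLeft_eq] at h7
  have ka : pack (extO o) K + (15 - b.val) * 2 ^ (4 * a.val) + i.val * 2 ^ (4 * b.val) +
      b.val * 2 ^ (4 * i.val) - a.val * 2 ^ (4 * b.val) - 15 * 2 ^ (4 * i.val) =
      pack (extO oa) K := by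
    omega
  have kb : pack (extO o) K + (15 - a.val) * 2 ^ (4 * b.val) + i.val * 2 ^ (4 * a.val) +
      a.val * 2 ^ (4 * i.val) - b.val * 2 ^ (4 * a.val) - 15 * 2 ^ (4 * i.val) =
      pack (extO ob) K := by
    omega
  rw [ka, kb] at h7
  exact h7

/-- the case that the first code is a key -/
theorem co_first {K : ℕ} (hK : K ≤ 15) (c : Tree) (h : c.keys.all (fun κ => cocK c K κ) = true)
    (t : Fin K → Fin K) (i j k : Fin K) (hij : i ≠ j) (hjk : j ≠ k) (hik : i ≠ k)
    (hsep : ∀ l, l < t l → ((l < i ∧ i < t l) ↔ (l < j ∧ j < t l)) ∧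
      ((l < i ∧ i < t l) ↔ (l < k ∧ k < t l)))
    (hkey : pack (extO (tri t i j k)) K ∈ c.keys) :
    c.find (pack (extO (tri t i j k)) K) ^^^ (c.find (pack (extO (tri t j k i)) K) ^^^
      c.find (pack (extO (tri t k i j)) K)) = 0 := by
  rcases lt_or_gt_of_ne hjk with hlt | hlt
  · exact co_key hK c h t i j k hij hlt hik hsep _ _ _ (fun l => rfl) (fun l => rfl)
      (fun l => rfl) hkey
  · have h1 := co_key hK c h t i k j hik hlt hij
      (fun l hl => ⟨(hsep l hl).2, (hsep l hl).1⟩) (tri t i j k) (tri t k i j) (tri t j k i)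
      (fun l => by
        unfold tri
        by_cases e1 : l = i
        · rw [if_pos e1, if_pos e1]
        rw [if_neg e1, if_neg e1]
        by_cases e2 : l = j
        · rw [if_pos e2, if_neg (fun h' => hjk (e2 ▸ h')), if_pos e2]
        · rw [if_neg e2]
          by_cases e3 : l = k
          · rw [if_pos e3, if_pos e3]
          · rw [if_neg e3, if_neg e3, if_neg e2])
      (fun l => by
        unfold tri
        by_cases e1 : l = k
        · rw [if_pos e1, if_pos e1]
        rw [if_neg e1, if_neg e1]
        by_cases e2 : l = i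
        · rw [if_pos e2, if_neg (fun h' => hij (e2 ▸ h')), if_pos e2]
        · rw [if_neg e2]
          by_cases e3 : l = j
          · rw [if_pos e3, if_pos e3]
          · rw [if_neg e3, if_neg e3, if_neg e2])
      (fun l => by
        unfold tri
        by_cases e1 : l = j
        · rw [if_pos e1, if_pos e1]
        rw [if_neg e1, if_neg e1]
        by_cases e2 : l = k
        · rw [if_pos e2, if_neg (fun h' => hik (e2 ▸ h').symm), if_pos e2]
        · rw [if_neg e2]
          by_cases e3 : l = i
          · rw [if_pos e3, if_pos e3]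
          · rw [if_neg e3, if_neg e3, if_neg e2]) hkey
    rw [Nat.xor_comm (c.find (pack (extO (tri t j k i)) K))]
    exact h1

theorem co_rot (a b c : ℕ) : a ^^^ (b ^^^ c) = b ^^^ (c ^^^ a) := by
  rw [Nat.xor_comm, Nat.xor_assoc]

theorem coc_sound {K : ℕ} (hK : K ≤ 15) (c : Tree) (h : c.keys.all (fun κ => cocK c K κ) = true)
    (t : Fin K → Fin K) (ht : ∀ i, t (t i) = i) (i j k : Fin K) (hij : i ≠ j) (hjk : j ≠ k)
    (hik : i ≠ k) (hi : t i = i) (hj : t j = j) (hk : t k = k)
    (hsep : ∀ l, l < t l → ((l < i ∧ i < t l) ↔ (l < j ∧ j < t l)) ∧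
      ((l < i ∧ i < t l) ↔ (l < k ∧ k < t l))) :
    c.find (pack (extO (tri t i j k)) K) ^^^ (c.find (pack (extO (tri t j k i)) K) ^^^
      c.find (pack (extO (tri t k i j)) K)) = 0 := by
  by_cases z1 : c.find (pack (extO (tri t i j k)) K) = 0
  · by_cases z2 : c.find (pack (extO (tri t j k i)) K) = 0
    · by_cases z3 : c.find (pack (extO (tri t k i j)) K) = 0
      · rw [z1, z2, z3]
        rfl
      · have h1 := co_first hK c h t k i j hik.symm hij hjk.symm
          (fun l hl => ⟨(hsep l hl).2.symm, (hsep l hl).2.symm.trans (hsep l hl).1⟩)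
          (co_find z3)
        rw [co_rot, co_rot]
        exact h1
    · have h1 := co_first hK c h t j k i hjk hik.symm hij.symm
        (fun l hl => ⟨(hsep l hl).1.symm.trans (hsep l hl).2, (hsep l hl).1.symm⟩)
        (co_find z2)
      rw [co_rot]
      exact h1
  · exact co_first hK c h t i j k hij hjk hik hsep (co_find z1)

end Pool.H64.NC.Code
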