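import Pool.Agent.Helper64.NC.Pack

/-!
NC-SI. Correctness of `single`.

`t`, `s` are involutions of `Fin K` with the same fixed points, `T`, `S` numbers with digits `t`, `s`.
If `single K T S = some b` then `b = true` iff the relation generated by `t` and `s` relates any two
nonfixed points.
Proof.  `x0 = fst T K 0` is the first nonfixed point (there is one).  Let `W` be the mask computed by
`cyc`: every leg with bit in `W` is `< K` and related to `x0`, and `x0` has its bit in `W` (at least
one step is made, as `K > 0`).  Answer `some true`: all nonfixed legs have their bit in `W`, so they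
are all related.  Answer `some false`: the set of legs with bit in `W` is closed under `t` and `s`
and contains `x0`, so it contains everything related to `x0`; since some nonfixed leg is not in it,
not all nonfixed legs are related. (`bt b e` is the bit `e` of `b`.) -/

namespace Pool.H64.NC.Code

theorem si_beq (a b : ℕ) : Nat.beq a b = true ↔ a = b :=
  ⟨Nat.eq_of_beq_eq_true, fun h => by subst h; exact Nat.beq_refl a⟩

theorem si_bt (b e : ℕ) : bt b e = b.testBit e := by
  unfold bt
  rw [Nat.testBit_eq_decide_div_mod_eq, Nat.shiftRight_eq_div_pow, Bool.eq_iff_iff]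
  simp

theorem si_bt_step (W x y e : ℕ) (h : bt (W ||| (1 <<< x) ||| (1 <<< y)) e = true) :
    bt W e = true ∨ e = x ∨ e = y := by
  rw [si_bt, Nat.testBit_or, Nat.testBit_or, Nat.one_shiftLeft, Nat.one_shiftLeft,
    Nat.testBit_two_pow, Nat.testBit_two_pow] at h
  rw [si_bt]
  simp only [Bool.or_eq_true, decide_eq_true_eq] at h
  rcases h with (h | h) | h
  · exact Or.inl h
  · exact Or.inr (Or.inl h.symm)
  · exact Or.inr (Or.inr h.symm)

theorem si_fst (T : ℕ) : ∀ n i : ℕ, (∃ j, i ≤ j ∧ j < i + n ∧ dig T j ≠ j) →
    fst T n i < i + n ∧ dig T (fst T n i) ≠ fst T n i := by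
  intro n
  induction n with
  | zero =>
    rintro i ⟨j, h1, h2, -⟩
    omega
  | succ n ih =>
    rintro i ⟨j, h1, h2, h3⟩
    by_cases hi : dig T i = i
    · have e : fst T (n + 1) i = fst T n (i + 1) := by
        simp [fst, hi]
      have hj : i + 1 ≤ j := by
        rcases Nat.eq_or_lt_of_le h1 with h | h
        · exact absurd (h ▸ hi) h3
        · exact h
      have := ih (i + 1) ⟨j, hj, by omega, h3⟩
      rw [e]
      exact ⟨by omega, this.2⟩
    · have e : fst T (n + 1) i = i := by
        have : Nat.beq (dig T i) i = false := by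
          cases h : Nat.beq (dig T i) i with
          | false => rfl
          | true => exact absurd ((si_beq _ _).mp h) hi
        simp [fst, this]
      rw [e]
      exact ⟨by omega, hi⟩

theorem si_cyc {K : ℕ} (t s : Fin K → Fin K) (T S : ℕ)
    (hT : ∀ i : Fin K, dig T i = t i) (hS : ∀ i : Fin K, dig S i = s i) (c : Fin K) (x0 : ℕ) :
    ∀ (n : ℕ) (x : Fin K) (W : ℕ), Conn t s c x →
      (∀ e, bt W e = true → ∃ h : e < K, Conn t s c ⟨e, h⟩) →
      ∀ e, bt (cyc T S x0 n x W) e = true → ∃ h : e < K, Conn t s c ⟨e, h⟩ := by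
  intro n
  induction n with
  | zero =>
    intro x W _ hW e he
    exact hW e he
  | succ n ih =>
    intro x W hx hW e he
    have h1 : Conn t s c (t x) :=
      Relation.EqvGen.trans _ _ _ hx (Relation.EqvGen.rel _ _ (Or.inl rfl))
    have h2 : Conn t s c (s (t x)) :=
      Relation.EqvGen.trans _ _ _ h1 (Relation.EqvGen.rel _ _ (Or.inr rfl))
    have hW' : ∀ e, bt (W ||| (1 <<< (x : ℕ)) ||| (1 <<< (t x : ℕ))) e = true →
        ∃ h : e < K, Conn t s c ⟨e, h⟩ := by
      intro e he
      rcases si_bt_step _ _ _ _ he with h | h | h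
      · exact hW e h
      · subst h
        exact ⟨x.2, hx⟩
      · subst h
        exact ⟨(t x).2, h1⟩
    simp only [cyc, hT x, hS (t x)] at he
    cases hb : Nat.beq (s (t x) : ℕ) x0 with
    | true =>
      rw [hb, cond_true] at he
      exact hW' e he
    | false =>
      rw [hb, cond_false] at he
      exact ih (s (t x)) _ h2 hW' e he

theorem si_closed {K : ℕ} (t s : Fin K → Fin K) (htt : ∀ i, t (t i) = i) (hss : ∀ i, s (s i) = i)
    (W : ℕ) (hW : ∀ i : Fin K, bt W i = true → bt W (t i) = true ∧ bt W (s i) = true)
    {i j : Fin K} (h : Conn t s i j) : bt W i = true ↔ bt W j = true := by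
  induction h with
  | rel x y h =>
    rcases h with h | h
    · subst h
      constructor
      · exact fun h => (hW x h).1
      · intro h
        have := (hW _ h).1
        rwa [htt] at this
    · subst h
      constructor
      · exact fun h => (hW x h).2
      · intro h
        have := (hW _ h).2
        rwa [hss] at this
  | refl x => exact Iff.rfl
  | symm x y _ ih => exact ih.symm
  | trans x y z _ _ ih1 ih2 => exact ih1.trans ih2

theorem single_iff {K : ℕ} (hK : K ≤ 15) (t s : Fin K → Fin K) (T S : ℕ)
    (hT : ∀ i : Fin K, dig T i = t i) (hS : ∀ i : Fin K, dig S i = s i)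
    (htt : ∀ i, t (t i) = i) (hss : ∀ i, s (s i) = i) (hfix : ∀ i, t i = i ↔ s i = i)
    (hne : ∃ i, t i ≠ i) (b : Bool) (h : single K T S = some b) :
    b = true ↔ ∀ i j, t i ≠ i → t j ≠ j → Conn t s i j := by
  obtain ⟨i0, hi0⟩ := hne
  have hfst := si_fst T K 0 ⟨i0, Nat.zero_le _, by have := i0.2; omega, by
    rw [hT]
    exact fun h => hi0 (Fin.ext h)⟩
  rw [Nat.zero_add] at hfst
  obtain ⟨x0, hx0⟩ : ∃ x0 : Fin K, (x0 : ℕ) = fst T K 0 := ⟨⟨_, hfst.1⟩, rfl⟩
  have hx0f : t x0 ≠ x0 := by
    intro h
    apply hfst.2
    rw [← hx0, hT, h]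
  unfold single at h
  simp only [← hx0] at h
  obtain ⟨W, hWd⟩ : ∃ W, W = cyc T S x0 K x0 0 := ⟨_, rfl⟩
  rw [← hWd] at h
  have hsound : ∀ e, bt W e = true → ∃ h : e < K, Conn t s x0 ⟨e, h⟩ := by
    rw [hWd]
    refine si_cyc t s T S hT hS x0 x0 K x0 0 (Relation.EqvGen.refl _) ?_
    intro e he
    rw [si_bt, Nat.zero_testBit] at he
    exact absurd he (by simp)
  cases h1 : (List.range K).all (fun i => Nat.beq (dig T i) i || bt W i) with
  | true =>
    rw [h1, cond_true, Option.some.injEq] at h
    subst h
    refine ⟨fun _ => ?_, fun _ => rfl⟩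
    have hall : ∀ i : Fin K, t i ≠ i → Conn t s x0 i := by
      intro i hi
      rw [List.all_eq_true] at h1
      have h2 := h1 i (List.mem_range.mpr i.2)
      rw [Bool.or_eq_true, si_beq, hT] at h2
      rcases h2 with h2 | h2
      · exact absurd (Fin.ext h2) hi
      · obtain ⟨_, h3⟩ := hsound i h2
        exact h3
    intro i j hi hj
    exact Relation.EqvGen.trans _ _ _ (Relation.EqvGen.symm _ _ (hall i hi)) (hall j hj)
  | false =>
    rw [h1, cond_false] at h
    cases h2 : ((List.range K).all (fun i =>
      bif bt W i then bt W (dig T i) && bt W (dig S i) else true) && bt W x0) with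
    | false =>
      rw [h2, cond_false] at h
      exact absurd h (by simp)
    | true =>
      rw [h2, cond_true, Option.some.injEq] at h
      subst h
      constructor
      · intro h
        exact absurd h (by simp)
      · intro hall
        exfalso
        rw [Bool.and_eq_true, List.all_eq_true] at h2
        have hcl : ∀ i : Fin K, bt W i = true → bt W (t i) = true ∧ bt W (s i) = true := by
          intro i hi
          have h3 := h2.1 i (List.mem_range.mpr i.2)
          rw [hi, cond_true, Bool.and_eq_true, hT, hS] at h3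
          exact h3
        rw [List.all_eq_false] at h1
        obtain ⟨i, hi, h3⟩ := h1
        rw [List.mem_range] at hi
        rw [Bool.or_eq_true, not_or, si_beq] at h3
        have h4 : t ⟨i, hi⟩ ≠ ⟨i, hi⟩ := by
          intro h
          apply h3.1
          have := hT ⟨i, hi⟩
          rw [h] at this
          exact this
        have h5 := hall x0 ⟨i, hi⟩ hx0f h4
        exact h3.2 ((si_closed t s htt hss W hcl h5).mp h2.2)

end Pool.H64.NC.Code
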