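import Pool.Agent.Helper64.NC.Pack

/-!
NC-DF. Packed functions and soundness of the search over noncrossing traces.

`dig_pack`: the digits of a packed function.  `dfsT_sound`: if `dfsT` returns `true` then the leaf
check holds for every noncrossing involution `f` of `{0, ..., K-1}` (packed), with the list `cf`
filtered to the entries with the same fixed points.
Induction: after `i` steps along `f` the state is `pack f i` and
`cf.filter (all l < i, ...)`.  `clm t i i = 0` iff no `a < i` has digit `i`; if it is `a + 1` then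
`f a = i`, so `f i = a`.  If it is `0` then `f i ≥ i` (else `a = f i` has `f a = i`), and if `f i > i`
then `f i < lim K t i i`, because `lim` is `K` or a digit `d = f a > i` with `a < i`, and `h3`. -/

namespace Pool.H64.NC.Code

theorem dfs_shl (j m : ℕ) : j <<< (4 * m) = j * 2 ^ (4 * m) := Nat.shiftLeft_eq j (4 * m)

theorem dfs_dig (t i : ℕ) : dig t i = t / 2 ^ (4 * i) % 16 := by
  unfold dig
  rw [Nat.shiftRight_eq_div_pow]

theorem dfs_pack_lt (f : ℕ → ℕ) (n : ℕ) (hf : ∀ j < n, f j < 16) : pack f n < 2 ^ (4 * n) := by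
  induction n with
  | zero => simp [pack]
  | succ n ih =>
    have h1 := ih fun j hj => hf j (Nat.lt_succ_of_lt hj)
    have h2 := hf n (Nat.lt_succ_self n)
    rw [pack, dfs_shl]
    have h3 : 2 ^ (4 * (n + 1)) = 16 * 2 ^ (4 * n) := by
      rw [show 4 * (n + 1) = 4 * n + 4 by ring, pow_add]
      ring
    rw [h3]
    have h4 : f n * 2 ^ (4 * n) ≤ 15 * 2 ^ (4 * n) := Nat.mul_le_mul_right _ (by omega)
    omega

theorem dfs_dig_add (A j n i : ℕ) (hi : i < n) : dig (A + (j <<< (4 * n))) i = dig A i := by
  rw [dfs_dig, dfs_dig, dfs_shl]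
  obtain ⟨d, rfl⟩ : ∃ d, n = i + 1 + d := ⟨n - (i + 1), by omega⟩
  have h1 : j * 2 ^ (4 * (i + 1 + d)) = 2 ^ (4 * i) * (16 * (j * 2 ^ (4 * d))) := by
    rw [show 4 * (i + 1 + d) = 4 * i + (4 + 4 * d) by ring, pow_add, pow_add]
    ring
  rw [h1, Nat.add_mul_div_left _ _ (by positivity), Nat.add_mul_mod_self_left]

theorem dfs_dig_top (A j n : ℕ) (hA : A < 2 ^ (4 * n)) (hj : j < 16) :
    dig (A + (j <<< (4 * n))) n = j := by
  rw [dfs_dig, dfs_shl, mul_comm, Nat.add_mul_div_left _ _ (by positivity),
    Nat.div_eq_of_lt hA, zero_add, Nat.mod_eq_of_lt hj]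

theorem dig_pack (f : ℕ → ℕ) (n i : ℕ) (hi : i < n) (hf : ∀ j < n, f j < 16) :
    dig (pack f n) i = f i := by
  induction n with
  | zero => exact absurd hi (Nat.not_lt_zero i)
  | succ n ih =>
    have h1 : ∀ j < n, f j < 16 := fun j hj => hf j (Nat.lt_succ_of_lt hj)
    rw [pack]
    rcases Nat.lt_succ_iff_lt_or_eq.mp hi with h | h
    · rw [dfs_dig_add _ _ _ _ h]
      exact ih h h1
    · subst h
      exact dfs_dig_top _ _ _ (dfs_pack_lt f i h1) (hf i hi)

theorem dig_pack_ge (f : ℕ → ℕ) (n i : ℕ) (hi : n ≤ i) (hf : ∀ j < n, f j < 16) :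
    dig (pack f n) i = 0 := by
  have h1 : pack f n < 2 ^ (4 * i) :=
    (dfs_pack_lt f n hf).trans_le (Nat.pow_le_pow_right (by norm_num) (by omega))
  rw [dfs_dig, Nat.div_eq_of_lt h1, Nat.zero_mod]

theorem dfs_clm_zero (t i m : ℕ) (h : clm t i m = 0) : ∀ a < m, dig t a ≠ i := by
  induction m with
  | zero => intro a ha; exact absurd ha (Nat.not_lt_zero a)
  | succ m ih =>
    intro a ha
    rw [clm] at h
    by_cases h1 : dig t m = i
    · have h2 : Nat.beq (dig t m) i = true := by rw [h1]; exact Nat.beq_refl i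
      rw [h2, cond_true] at h
      exact absurd h (Nat.succ_ne_zero m)
    · have h2 : Nat.beq (dig t m) i = false := by
        rw [Bool.eq_false_iff]
        intro h3
        exact h1 (Nat.eq_of_beq_eq_true h3)
      rw [h2, cond_false] at h
      rcases Nat.lt_succ_iff_lt_or_eq.mp ha with h3 | h3
      · exact ih h a h3
      · rw [h3]
        exact h1

theorem dfs_clm_ne (t i m : ℕ) (h : clm t i m ≠ 0) :
    clm t i m - 1 < m ∧ dig t (clm t i m - 1) = i := by
  induction m with
  | zero => exact absurd rfl h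
  | succ m ih =>
    rw [clm] at h ⊢
    by_cases h1 : dig t m = i
    · have h2 : Nat.beq (dig t m) i = true := by rw [h1]; exact Nat.beq_refl i
      rw [h2, cond_true]
      exact ⟨by omega, by rw [Nat.add_sub_cancel]; exact h1⟩
    · have h2 : Nat.beq (dig t m) i = false := by
        rw [Bool.eq_false_iff]
        intro h3
        exact h1 (Nat.eq_of_beq_eq_true h3)
      rw [h2, cond_false] at h ⊢
      obtain ⟨h3, h4⟩ := ih h
      exact ⟨by omega, h4⟩

theorem dfs_lim (K t i m x : ℕ) (hx : x < K) (h : ∀ a < m, i < dig t a → x < dig t a) :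
    x < lim K t i m := by
  induction m with
  | zero => exact hx
  | succ m ih =>
    rw [lim]
    have h1 := ih fun a ha => h a (Nat.lt_succ_of_lt ha)
    by_cases h2 : (Nat.blt i (dig t m) && Nat.blt (dig t m) (lim K t i m)) = true
    · simp only [h2, cond_true]
      rw [Bool.and_eq_true] at h2
      exact h m (Nat.lt_succ_self m) (Nat.blt_eq.mp h2.1)
    · rw [Bool.not_eq_true] at h2
      simp only [h2, cond_false]
      exact h1

theorem dfs_filter (cf : List (ℕ × ℕ)) (f : ℕ → ℕ) (i : ℕ) :
    (cf.filter (fun x =>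
      (List.range i).all (fun i => Nat.beq (dig x.2 i) i == Nat.beq (f i) i))).filter
        (fun x => Nat.beq (dig x.2 i) i == Nat.beq (f i) i) =
    cf.filter (fun x =>
      (List.range (i + 1)).all (fun i => Nat.beq (dig x.2 i) i == Nat.beq (f i) i)) := by
  rw [List.filter_filter]
  congr 1
  funext x
  rw [List.range_succ, List.all_append, Bool.and_comm]
  simp

theorem dfs_step (c : Tree) (K : ℕ) (tab : List (ℕ × List ℕ)) (cf : List (ℕ × ℕ)) (f : ℕ → ℕ)
    (hK : K ≤ 15) (h1 : ∀ i < K, f i < K) (h2 : ∀ i < K, f (f i) = i)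
    (h3 : ∀ a < K, ∀ i < K, a < i → i < f a → f i < f a) (n : ℕ) :
    ∀ i, n + i = K → dfsT c K tab n i (pack f i) (cf.filter (fun x =>
      (List.range i).all (fun i => Nat.beq (dig x.2 i) i == Nat.beq (f i) i))) = true →
    leafT c K tab (pack f K) (cf.filter (fun x =>
      (List.range K).all (fun i => Nat.beq (dig x.2 i) i == Nat.beq (f i) i))) = true := by
  induction n with
  | zero =>
    intro i hi h
    rw [zero_add] at hi
    subst hi
    exact h
  | succ n ih =>
    intro i hi h
    have hiK : i < K := by omega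
    refine ih (i + 1) (by omega) ?_
    rw [← dfs_filter]
    have hd : ∀ a < i, dig (pack f i) a = f a := fun a ha =>
      dig_pack f i a ha fun j hj => by have := h1 j (by omega); omega
    rw [pack]
    rw [dfsT] at h
    by_cases hc : clm (pack f i) i i = 0
    · have hb : Nat.beq (clm (pack f i) i i) 0 = true := by rw [hc]; rfl
      simp only [hb, cond_true, Bool.and_eq_true] at h
      have hge : i ≤ f i := by
        by_contra hlt
        rw [not_le] at hlt
        refine dfs_clm_zero _ _ _ hc (f i) hlt ?_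
        rw [hd _ hlt]
        exact h2 i hiK
      rcases Nat.eq_or_lt_of_le hge with he | hl
      · rw [← he]
        exact h.1
      · have hlim : f i < lim K (pack f i) i i := by
          refine dfs_lim _ _ _ _ _ (h1 i hiK) fun a ha hia => ?_
          rw [hd a ha] at hia ⊢
          exact h3 a (by omega) i hiK ha hia
        have h4 := List.all_eq_true.mp h.2 (f i - (i + 1)) (List.mem_range.mpr (by omega))
        rw [show i + 1 + (f i - (i + 1)) = f i by omega] at h4
        exact h4
    · have hb : Nat.beq (clm (pack f i) i i) 0 = false := by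
        rw [Bool.eq_false_iff]
        intro h5
        exact hc (Nat.eq_of_beq_eq_true h5)
      simp only [hb, cond_false] at h
      obtain ⟨h5, h6⟩ := dfs_clm_ne _ _ _ hc
      rw [hd _ h5] at h6
      have h7 : clm (pack f i) i i - 1 = f i := by
        rw [← h6, h2 _ (by omega), h6]
      rw [h7] at h
      exact h

theorem dfsT_sound (c : Tree) (K : ℕ) (tab : List (ℕ × List ℕ)) (cf : List (ℕ × ℕ)) (f : ℕ → ℕ)
    (hK : K ≤ 15) (h1 : ∀ i < K, f i < K) (h2 : ∀ i < K, f (f i) = i)
    (h3 : ∀ a < K, ∀ i < K, a < i → i < f a → f i < f a)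
    (h : dfsT c K tab K 0 0 cf = true) :
    leafT c K tab (pack f K) (cf.filter (fun x =>
      (List.range K).all (fun i => Nat.beq (dig x.2 i) i == Nat.beq (f i) i))) = true := by
  refine dfs_step c K tab cf f hK h1 h2 h3 K 0 (by omega) ?_
  rw [List.range_zero]
  have h4 : cf.filter (fun x =>
      ([] : List ℕ).all (fun i => Nat.beq (dig x.2 i) i == Nat.beq (f i) i)) = cf := by
    simp
  rw [h4]
  exact h

end Pool.H64.NC.Code
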