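import Pool.Agent.Helper64.NC.Code
import Pool.Agent.Helper64.NC.Defs

/-!
NC-EN. Soundness of the enumeration `enumC`.

`u e`: the edge `e` is unused.  `U`, `S`: bit masks of edges known to be unused / used.
`bt b e` is the bit `e` of `b`; prove first `bt b e = true ↔ Nat.testBit b e = true` and use the
lemmas on `Nat.testBit` (`testBit_or`, `testBit_and`, one-bit masks `1 <<< e`).
Induction on `V`: at the first vertex exactly one of the three edges is unused, say the one of
`v.1`; then the test `(S &&& mx) + (U &&& my) + (U &&& mz) = 0` succeeds because `S` has no bit at an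
unused edge and `U` has no bit at a used edge, and the induction hypothesis applies to
`U ||| mx`, `S ||| my ||| mz`. -/

namespace Pool.H64.NC.Code

theorem enumC_bt_iff (b e : ℕ) : bt b e = true ↔ Nat.testBit b e = true := by
  unfold bt
  rw [Nat.testBit_eq_decide_div_mod_eq, Nat.shiftRight_eq_div_pow]
  simp [Nat.beq_eq]

theorem enumC_bt_or (b c e : ℕ) : bt (b ||| c) e = true ↔ bt b e = true ∨ bt c e = true := by
  rw [enumC_bt_iff, enumC_bt_iff, enumC_bt_iff, Nat.testBit_or]
  simp

theorem enumC_bt_one (i e : ℕ) : bt (1 <<< i) e = true ↔ i = e := by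
  rw [enumC_bt_iff, Nat.one_shiftLeft, Nat.testBit_two_pow]
  simp

theorem enumC_and_zero (S e : ℕ) (h : ¬ bt S e = true) : S &&& (1 <<< e) = 0 := by
  rw [Nat.one_shiftLeft]
  apply Nat.eq_of_testBit_eq
  intro i
  rw [Nat.testBit_and, Nat.testBit_two_pow, Nat.zero_testBit]
  by_cases hi : e = i
  · subst hi
    have : Nat.testBit S e = false := by
      rw [enumC_bt_iff] at h
      simpa using h
    simp [this]
  · simp [hi]

theorem enumC_test (S U x y z : ℕ) (hx : ¬ bt S x = true) (hy : ¬ bt U y = true)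
    (hz : ¬ bt U z = true) :
    Nat.beq ((S &&& (1 <<< x)) + (U &&& (1 <<< y)) + (U &&& (1 <<< z))) 0 = true := by
  rw [enumC_and_zero S x hx, enumC_and_zero U y hy, enumC_and_zero U z hz]
  rfl

theorem enumC_step (u : ℕ → Prop) (U S x y z : ℕ) (hU : ∀ e, bt U e = true → u e)
    (hS : ∀ e, bt S e = true → ¬ u e) (hx : u x) (hy : ¬ u y) (hz : ¬ u z) :
    (Nat.beq ((S &&& (1 <<< x)) + (U &&& (1 <<< y)) + (U &&& (1 <<< z))) 0 = true) ∧
    (∀ e, bt (U ||| (1 <<< x)) e = true → u e) ∧
    (∀ e, bt (S ||| (1 <<< y) ||| (1 <<< z)) e = true → ¬ u e) := by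
  refine ⟨enumC_test S U x y z (fun h => hS x h hx) (fun h => hy (hU y h))
    (fun h => hz (hU z h)), ?_, ?_⟩
  · intro e he
    rw [enumC_bt_or, enumC_bt_one] at he
    rcases he with he | he
    · exact hU e he
    · subst he; exact hx
  · intro e he
    rw [enumC_bt_or, enumC_bt_or, enumC_bt_one, enumC_bt_one] at he
    rcases he with (he | he) | he
    · exact hS e he
    · subst he; exact hy
    · subst he; exact hz

theorem enumC_sound (V : List (ℕ × ℕ × ℕ)) (u : ℕ → Prop)
    (hV : ∀ v ∈ V, One3 (u (v.1 / 2)) (u (v.2.1 / 2)) (u (v.2.2 / 2))) (U S : ℕ)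
    (hU : ∀ e, bt U e = true → u e) (hS : ∀ e, bt S e = true → ¬ u e) :
    ∃ b ∈ enumC V U S, (∀ e, bt b e = true → u e) ∧ (∀ e, bt U e = true → bt b e = true) ∧
      ∀ v ∈ V, (u (v.1 / 2) → bt b (v.1 / 2) = true) ∧ (u (v.2.1 / 2) → bt b (v.2.1 / 2) = true) ∧
        (u (v.2.2 / 2) → bt b (v.2.2 / 2) = true) := by
  induction V generalizing U S with
  | nil =>
    refine ⟨U, ?_, hU, fun e he => he, ?_⟩
    · simp [enumC]
    · intro v hv
      simp at hv
  | cons v V ih =>
    have hV' : ∀ w ∈ V, One3 (u (w.1 / 2)) (u (w.2.1 / 2)) (u (w.2.2 / 2)) :=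
      fun w hw => hV w (List.mem_cons_of_mem _ hw)
    have h0 := hV v List.mem_cons_self
    rcases h0 with ⟨h1, h2, h3⟩ | ⟨h1, h2, h3⟩ | ⟨h1, h2, h3⟩
    · obtain ⟨ht, hU', hS'⟩ := enumC_step u U S (v.1 / 2) (v.2.1 / 2) (v.2.2 / 2) hU hS h1 h2 h3
      obtain ⟨b, hb, hbu, hbU, hbV⟩ := ih hV' _ _ hU' hS'
      refine ⟨b, ?_, hbu, ?_, ?_⟩
      · unfold enumC
        simp only [List.mem_append]
        left
        rw [ht]
        exact hb
      · intro e he
        exact hbU e ((enumC_bt_or _ _ _).2 (Or.inl he))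
      · intro w hw
        rcases List.mem_cons.1 hw with hw | hw
        · subst hw
          exact ⟨fun _ => hbU _ ((enumC_bt_or _ _ _).2 (Or.inr ((enumC_bt_one _ _).2 rfl))),
            fun h => absurd h h2, fun h => absurd h h3⟩
        · exact hbV w hw
    · obtain ⟨ht, hU', hS'⟩ := enumC_step u U S (v.2.1 / 2) (v.1 / 2) (v.2.2 / 2) hU hS h2 h1 h3
      obtain ⟨b, hb, hbu, hbU, hbV⟩ := ih hV' _ _ hU' hS'
      refine ⟨b, ?_, hbu, ?_, ?_⟩
      · unfold enumC
        simp only [List.mem_append]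
        right
        left
        rw [ht]
        exact hb
      · intro e he
        exact hbU e ((enumC_bt_or _ _ _).2 (Or.inl he))
      · intro w hw
        rcases List.mem_cons.1 hw with hw | hw
        · subst hw
          exact ⟨fun h => absurd h h1,
            fun _ => hbU _ ((enumC_bt_or _ _ _).2 (Or.inr ((enumC_bt_one _ _).2 rfl))),
            fun h => absurd h h3⟩
        · exact hbV w hw
    · obtain ⟨ht, hU', hS'⟩ := enumC_step u U S (v.2.2 / 2) (v.1 / 2) (v.2.1 / 2) hU hS h3 h1 h2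
      obtain ⟨b, hb, hbu, hbU, hbV⟩ := ih hV' _ _ hU' hS'
      refine ⟨b, ?_, hbu, ?_, ?_⟩
      · unfold enumC
        simp only [List.mem_append]
        right
        right
        rw [ht]
        exact hb
      · intro e he
        exact hbU e ((enumC_bt_or _ _ _).2 (Or.inl he))
      · intro w hw
        rcases List.mem_cons.1 hw with hw | hw
        · subst hw
          exact ⟨fun h => absurd h h1, fun h => absurd h h2,
            fun _ => hbU _ ((enumC_bt_or _ _ _).2 (Or.inr ((enumC_bt_one _ _).2 rfl)))⟩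
        · exact hbV w hw

end Pool.H64.NC.Code
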