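import Pool.Agent.Helper64.NC.Plane

/-!
NC-WH. A face of length `p ≥ 4` and its neighbours form an embedded wheel.

Hypotheses `A0`, `A1`, `A2`: see the theorems `adj0`, `adj1`, `adj2` of `St/Cut.lean` (being proved in
parallel).  Conventions: `φ = M.face`, `φ x = σ (α x)`, so `φ (α x) = σ x`; `Fc x y`: same `φ`-cycle.
`x0` lies on a face of length `p`; `d i = φ^i x0` (so `d (i + p) = d i`, and the `d i`, `i < p`, are
distinct); `s i = σ (d i)`.  Since `d (i+1) = σ (α (d i))` and `σ³ = 1`: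
`σ (s (i+1)) = α (d i)`.  Write `F` for the face of `x0` and `F i` for the face of `α (d i)`
(length `q i`).  `φ (α (d i)) = s i`; put `r i j = φ^(j+1) (α (d i))`.
Closing: `φ (α (s (i+1))) = σ (s (i+1)) = α (d i)`, hence `φ^(q i - 1) (α (d i)) = α (s (i+1))`.

Faces: `F ≠ F i` (`A0` at `d i`); `F i ≠ F k` for `i ≠ k` mod `p` (`A1` for `d i`, `d k`).
(ADJ) if `Fc w (α (d i))`, `Fc (α w) (α (d k))` and `i ≠ k` (mod `p`), then (`w = s i` and
`k = i - 1`) or (`w = α (s (i+1))` and `k = i + 1`): apply `A2` to `x = d i`, `y = w`, `z = α (d k)`: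
either `σ (d i) = w` and `σ w = α (d k)`, and `σ (s i) = α (d (i-1))`, so `k = i - 1`; or
`σ (α (d i)) = d k`, so `k = i + 1`, and `σ (d k) = α w`, so `w = α (s (i+1))`.
(ADJ0) if `Fc w (α (d i))` and `Fc (α w) x0` then `w = α (d i)` (`A1`).

Lengths: `q i ≥ 4`.  `q i = 1`: `α (s (i+1)) = α (d i)`, so `s (i+1) = d i`, but `s (i+1)` is on
`F (i+1)`.  `q i = 2`: `α (s (i+1)) = s i`, whose face is `F i`, and `s (i+1) = α (s i)` lies on `F (i+1)` and
(as `s i = σ (d i)`, `α (s i)`: `φ (α (s i)) = σ (s i) = α (d (i-1))`) on `F (i-1)`: `p ≤ 2`.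
`q i = 3`: `α (s (i+1)) = φ (s i) = σ (α (s i))`; `t = σ (α (s (i+1)))` is on the face of
`s (i+1)`, i.e. `F (i+1)`, and `α t` is on the face of `σ t = α (s i)`, i.e. `F (i-1)`; (ADJ) gives
`i - 1 = i` or `i - 1 = i + 2` mod `p`, impossible for `p ≥ 4`.

The coded wheel: for a code `x` put `e = x / 2`, `i = e / 16`, `k = e % 16` and
`base x = d i` if `k = 0`, `s i` if `k = 1`, `φ^k (α (d i)) = r i (k-1)` if `2 ≤ k < 8`,
`σ (σ (α (φ^(k-6) (α (d i)))))` if `k ≥ 8` (leg `m i (k-7) = σ² α (r i (k-7))`);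
`ι x = base x` for `x` even and `α (base x)` for `x` odd.
The three kinds of vertices in `wV q` (`i < p`):
`(d i, s i, α (d (i-1)))`; `(α (s i), r i 1, α (r (i-1) (q (i-1) - 3)))` (closing property of
`F (i-1)`: `φ (r (i-1) (q-3)) = α (s i)`, so `σ (α (r (i-1) (q-3))) = α (s i)`);
`(α (r i j), r i (j+1), m i j)`, `1 ≤ j ≤ q i - 4`.

Injectivity.  Inner darts: `d i` (face `F`), and `α (d i)`, `s i`, `r i j` (`1 ≤ j ≤ q i - 3`),
`α (s (i+1))`, which are `φ^j (α (d i))` for `j = 0, 1, j+1, q i - 1` (face `F i`): all distinct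
codes give distinct darts.  Other codes: `α (r i j)` and `m i j`.  Every vertex of the list
contains an inner dart.  If two vertices `v ≠ v'` of the list had a common dart they would have the
same three darts. A vertex `w = (α (r i j), r i (j+1), m i j)` has the inner dart `a = r i (j+1)`;
let `a'` be an inner dart of `v'`; `a' = σ a` or `a' = σ² a`.  In the first case the edge of `a`
has `F i` and the face of `a'` on its two sides: impossible by `A0` (same face), (ADJ0) (face `F`: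
`a = α (d i)`) or (ADJ) (`a = s i` or `α (s (i+1))`).  In the second case `a = σ a'`, `α a'` is
`φ⁻¹ a = r i j` and the same argument applies to `w = α a'`.  A vertex of the first kind has three
inner darts, one of the second kind two inner darts out of three, so two vertices of the first
two kinds with the same darts have a common inner dart. -/

namespace Pool.H64.NC.CubicMap

open Code Function

variable {D : Type*} [Fintype D] [DecidableEq D] {M : CubicMap D}

omit [Fintype D] [DecidableEq D] in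
theorem wh_fc_face (x : D) : M.Fc x (M.face x) :=
  Equiv.Perm.sameCycle_apply_right.mpr (Equiv.Perm.SameCycle.refl _ _)

omit [Fintype D] [DecidableEq D] in
theorem wh_fc_iter (x : D) (n : ℕ) : M.Fc x (M.face^[n] x) := by
  induction n with
  | zero => exact Equiv.Perm.SameCycle.refl _ _
  | succ n ih =>
    rw [iterate_succ_apply']
    exact Equiv.Perm.sameCycle_apply_right.mpr ih

omit [Fintype D] [DecidableEq D] in
theorem wh_fc_σ (x : D) : M.Fc (M.α x) (M.σ x) := by
  have h := wh_fc_face (M := M) (M.α x)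
  rwa [face_apply, M.α2] at h

omit [Fintype D] [DecidableEq D] in
theorem wh_refl (x : D) : M.Fc x x := Equiv.Perm.SameCycle.refl _ _

omit [Fintype D] [DecidableEq D] in
theorem wh_symm {x y : D} (h : M.Fc x y) : M.Fc y x := Equiv.Perm.SameCycle.symm h

omit [Fintype D] [DecidableEq D] in
theorem wh_trans {x y z : D} (h : M.Fc x y) (h' : M.Fc y z) : M.Fc x z :=
  Equiv.Perm.SameCycle.trans h h'

omit [Fintype D] [DecidableEq D] in
/-- closing -/
theorem wh_close (x : D) : M.face (M.α (M.σ (M.face x))) = M.α x := by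
  rw [face_apply, M.α2, face_apply, M.σ3]

omit [Fintype D] [DecidableEq D] in
theorem wh_adj (A2 : ∀ x y z, M.Fc (M.α x) y → M.Fc (M.α y) z → M.Fc (M.α z) x →
      (M.σ x = y ∧ M.σ y = z) ∨ (M.σ (M.α x) = M.α z ∧ M.σ (M.α z) = M.α y))
    {x z w : D} (hxz : M.Fc x z) (h1 : M.Fc w (M.α x)) (h2 : M.Fc (M.α w) (M.α z)) :
    (w = M.σ x ∧ M.σ w = M.α z) ∨ (w = M.α (M.σ (M.face x)) ∧ z = M.face x) := by
  have h3 : M.Fc (M.α (M.α z)) x := by rw [M.α2]; exact wh_symm hxz
  rcases A2 x w (M.α z) (wh_symm h1) h2 h3 with ⟨h, h'⟩ | ⟨h, h'⟩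
  · exact Or.inl ⟨h.symm, h'⟩
  · rw [M.α2] at h h'
    right
    refine ⟨?_, h.symm⟩
    rw [face_apply, h, h', M.α2]

omit [Fintype D] [DecidableEq D] in
theorem wh_adj0 (A1 : ∀ x y, M.Fc x y → M.Fc (M.α x) (M.α y) → y = x)
    {x z w : D} (hxz : M.Fc x z) (h1 : M.Fc w (M.α x)) (h2 : M.Fc (M.α w) z) : w = M.α x := by
  refine A1 _ _ (wh_symm h1) ?_
  rw [M.α2]
  exact wh_trans hxz (wh_symm h2)

omit [Fintype D] [DecidableEq D] in
theorem wh_closed_face {x y : D} (h : M.face x = y) : M.σ (M.σ y) = M.α x := by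
  rw [← h, face_apply, M.σ3]

theorem nbr_len (A0 : ∀ x, ¬ M.Fc x (M.α x))
    (A1 : ∀ x y, M.Fc x y → M.Fc (M.α x) (M.α y) → y = x)
    (A2 : ∀ x y z, M.Fc (M.α x) y → M.Fc (M.α y) z → M.Fc (M.α z) x →
      (M.σ x = y ∧ M.σ y = z) ∨ (M.σ (M.α x) = M.α z ∧ M.σ (M.α z) = M.α y))
    (x0 : D) (hp : 4 ≤ M.flen x0) : 4 ≤ M.flen (M.α x0) := by
  obtain ⟨y, rfl⟩ : ∃ y, M.face y = x0 := M.face.surjective x0
  -- y = x⁻
  have per : ∀ n, 0 < n → n < 4 → ∀ z, M.Fc z (M.face y) → M.face^[n] z ≠ z := by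
    intro n hn hn4 z hz h
    obtain ⟨k, hk⟩ := hz.exists_nat_pow_eq
    have hk' : M.face^[k] z = M.face y := by rw [← hk, Equiv.Perm.iterate_eq_pow]
    have h2 : IsPeriodicPt M.face n (M.face y) := by
      rw [← hk']
      have h3 : IsPeriodicPt M.face n z := h
      exact h3.apply_iterate k
    have h3 := h2.minimalPeriod_le hn
    have h4 : M.flen (M.face y) = minimalPeriod M.face (M.face y) := rfl
    omega
  have hyf : M.Fc y (M.face y) := wh_fc_face y
  have hff : M.Fc (M.face y) (M.face (M.face y)) := wh_fc_face _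
  have hcl := wh_close (M := M) (M.face y)
  have hmm : M.σ (M.σ (M.face y)) = M.α y := wh_closed_face rfl
  by_contra hlt
  push Not at hlt
  have hpos : 0 < M.flen (M.α (M.face y)) := by
    apply minimalPeriod_pos_of_mem_periodicPts
    exact (Injective.mem_periodicPts (M.face.injective)) _
  have hper : M.face^[M.flen (M.α (M.face y))] (M.α (M.face y)) = M.α (M.face y) :=
    iterate_minimalPeriod
  have hs1 : M.Fc (M.σ (M.face (M.face y))) (M.α (M.face (M.face y))) := wh_symm (wh_fc_σ _)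
  generalize hq : M.flen (M.α (M.face y)) = q at hlt hpos hper
  interval_cases q
  · -- q = 1
    have h1 : M.α (M.σ (M.face (M.face y))) = M.α (M.face y) := by
      apply M.face.injective
      rw [hcl]; exact hper.symm
    have h2 := αinj h1
    rw [h2] at hs1
    exact A0 _ (wh_trans (wh_symm hff) hs1)
  · -- q = 2
    have h1 : M.α (M.σ (M.face (M.face y))) = M.σ (M.face y) := by
      apply M.face.injective
      rw [hcl]
      have h2 : M.face (M.face (M.α (M.face y))) = M.α (M.face y) := hper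
      rw [← h2]
      congr 1
      rw [face_apply (M := M) (M.α (M.face y)), M.α2]
    have h2 : M.σ (M.face (M.face y)) = M.α (M.σ (M.face y)) := by rw [← h1, M.α2]
    have h3 : M.Fc (M.α (M.σ (M.face y))) (M.α y) := by
      rw [← hmm]; exact wh_fc_σ _
    rw [h2] at hs1
    have h4 : M.Fc (M.α y) (M.α (M.face (M.face y))) := wh_trans (wh_symm h3) hs1
    have h5 := A1 _ _ (wh_trans hyf hff) h4
    exact per 2 (by norm_num) (by norm_num) y hyf h5
  · -- q = 3
    have h1 : M.α (M.σ (M.face (M.face y))) = M.face (M.σ (M.face y)) := by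
      apply M.face.injective
      rw [hcl]
      have h2 : M.face (M.face (M.face (M.α (M.face y)))) = M.α (M.face y) := hper
      rw [← h2]
      congr 2
      rw [face_apply (M := M) (M.α (M.face y)), M.α2]
    have h2 : M.Fc (M.face (M.σ (M.face (M.face y)))) (M.α (M.face (M.face y))) :=
      wh_trans (wh_symm (wh_fc_face _)) hs1
    have h3 : M.σ (M.face (M.σ (M.face (M.face y)))) = M.α (M.σ (M.face y)) := by
      rw [face_apply, h1, face_apply, M.σ3]
    have h4 : M.Fc (M.α (M.face (M.σ (M.face (M.face y))))) (M.α y) := by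
      refine wh_trans (wh_fc_σ _) ?_
      rw [h3, ← hmm]
      exact wh_fc_σ _
    rcases wh_adj A2 (wh_symm (wh_trans hyf hff)) h2 h4 with ⟨h5, h6⟩ | ⟨_, h6⟩
    · rw [h5, wh_closed_face rfl] at h6
      exact per 1 (by norm_num) (by norm_num) y hyf (αinj h6)
    · exact per 3 (by norm_num) (by norm_num) y hyf h6.symm

/-- the dart of the edge number `e` -/
def whB (M : CubicMap D) (x0 : D) (e : ℕ) : D :=
  if e % 16 = 0 then M.face^[e / 16] x0
  else if e % 16 = 1 then M.σ (M.face^[e / 16] x0)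
  else if e % 16 < 8 then M.face^[e % 16] (M.α (M.face^[e / 16] x0))
  else M.σ (M.σ (M.α (M.face^[e % 16 - 6] (M.α (M.face^[e / 16] x0)))))

/-- the coding -/
def whI (M : CubicMap D) (x0 : D) (x : ℕ) : D :=
  if x % 2 = 0 then whB M x0 (x / 2) else M.α (whB M x0 (x / 2))

omit [Fintype D] [DecidableEq D] in
theorem whI_even (x0 : D) (e : ℕ) : whI M x0 (2 * e) = whB M x0 e := by
  have h1 : 2 * e % 2 = 0 := by omega
  have h2 : 2 * e / 2 = e := by omega
  rw [whI, if_pos h1, h2]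

omit [Fintype D] [DecidableEq D] in
theorem whI_odd (x0 : D) (e : ℕ) : whI M x0 (2 * e + 1) = M.α (whB M x0 e) := by
  have h1 : ¬ (2 * e + 1) % 2 = 0 := by omega
  have h2 : (2 * e + 1) / 2 = e := by omega
  rw [whI, if_neg h1, h2]

omit [Fintype D] [DecidableEq D] in
theorem whI_al (x0 : D) (x : ℕ) : M.α (whI M x0 x) = whI M x0 (x ^^^ 1) := by
  rcases Nat.even_or_odd' x with ⟨e, rfl | rfl⟩
  · have h : 2 * e ^^^ 1 = 2 * e + 1 := by
      rw [Nat.xor_one_of_even ⟨e, by ring⟩]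
    rw [h, whI_even, whI_odd]
  · have h : (2 * e + 1) ^^^ 1 = 2 * e := by
      rw [Nat.xor_one_of_odd ⟨e, rfl⟩]
      rfl
    rw [h, whI_even, whI_odd, M.α2]

omit [Fintype D] [DecidableEq D] in
theorem whB0 (x0 : D) (i : ℕ) : whB M x0 (16 * i) = M.face^[i] x0 := by
  have h1 : 16 * i % 16 = 0 := by omega
  have h2 : 16 * i / 16 = i := by omega
  rw [whB, if_pos h1, h2]

omit [Fintype D] [DecidableEq D] in
theorem whB1 (x0 : D) (i : ℕ) : whB M x0 (16 * i + 1) = M.σ (M.face^[i] x0) := by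
  have h1 : ¬ (16 * i + 1) % 16 = 0 := by omega
  have h1' : (16 * i + 1) % 16 = 1 := by omega
  have h2 : (16 * i + 1) / 16 = i := by omega
  rw [whB, if_neg h1, if_pos h1', h2]

omit [Fintype D] [DecidableEq D] in
theorem whB2 (x0 : D) (i k : ℕ) (hk : 2 ≤ k) (hk8 : k < 8) :
    whB M x0 (16 * i + k) = M.face^[k] (M.α (M.face^[i] x0)) := by
  have h1 : (16 * i + k) % 16 = k := by omega
  have h2 : (16 * i + k) / 16 = i := by omega
  rw [whB, h1, h2, if_neg (by omega), if_neg (by omega), if_pos hk8]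

omit [Fintype D] [DecidableEq D] in
theorem whB3 (x0 : D) (i k : ℕ) (hk : 2 ≤ k) (hk8 : k < 8) :
    whB M x0 (16 * i + (k + 6)) = M.σ (M.σ (M.α (M.face^[k] (M.α (M.face^[i] x0))))) := by
  have h1 : (16 * i + (k + 6)) % 16 = k + 6 := by omega
  have h2 : (16 * i + (k + 6)) / 16 = i := by omega
  have h3 : k + 6 - 6 = k := by omega
  rw [whB, h1, h2, if_neg (by omega), if_neg (by omega), if_neg (by omega), h3]

/-- the vertex with the number `(i, k)` -/
def whV (q : List ℕ) (i k : ℕ) : ℕ × ℕ × ℕ :=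
  if k = 0 then (2 * (16 * i), 2 * (16 * i + 1), 2 * (16 * pr q.length i) + 1)
  else if k = 2 then (2 * (16 * i + 1) + 1, 2 * (16 * i + 2),
      2 * (16 * pr q.length i + (q.getD (pr q.length i) 0 - 2)) + 1)
  else (2 * (16 * i + (k - 1)) + 1, 2 * (16 * i + k), 2 * (16 * i + (k - 1 + 6)))

/-- the representative of the vertex with the number `(i, k)` -/
def whR (M : CubicMap D) (x0 : D) (i k : ℕ) : D :=
  if k = 0 then M.face^[i] x0 else M.face^[k] (M.α (M.face^[i] x0))

theorem wh_mem {q : List ℕ} {v : ℕ × ℕ × ℕ} (hq4 : ∀ i < q.length, 4 ≤ q.getD i 0)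
    (hp : 0 < q.length) (hv : v ∈ wV q) :
    ∃ i < q.length, ∃ k, (k = 0 ∨ (2 ≤ k ∧ k ≤ q.getD i 0 - 2)) ∧ v = whV q i k := by
  unfold wV at hv
  rw [List.mem_flatMap] at hv
  obtain ⟨i, hi, hv⟩ := hv
  rw [List.mem_range] at hi
  have h4 := hq4 i hi
  have hpr : pr q.length i < q.length := by unfold pr; split_ifs <;> omega
  have h5 := hq4 _ hpr
  refine ⟨i, hi, ?_⟩
  rw [List.mem_cons, List.mem_cons, List.mem_map] at hv
  rcases hv with hv | hv | ⟨j, hj, hv⟩
  · exact ⟨0, Or.inl rfl, by rw [hv, whV, if_pos rfl]⟩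
  · refine ⟨2, Or.inr ⟨le_refl _, by omega⟩, ?_⟩
    rw [hv, whV, if_neg (by omega), if_pos rfl]
    have e : 16 * pr q.length i + 1 + (q.getD (pr q.length i) 0 - 3) =
        16 * pr q.length i + (q.getD (pr q.length i) 0 - 2) := by omega
    rw [e]
  · rw [List.mem_range] at hj
    refine ⟨3 + j, Or.inr ⟨by omega, by omega⟩, ?_⟩
    rw [← hv, whV, if_neg (by omega), if_neg (by omega)]
    have e1 : 16 * i + 2 + j = 16 * i + (3 + j - 1) := by omega
    have e2 : 16 * i + 3 + j = 16 * i + (3 + j) := by omega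
    have e3 : 16 * i + 8 + j = 16 * i + (3 + j - 1 + 6) := by omega
    rw [e1, e2, e3]

omit [Fintype D] [DecidableEq D] in
theorem wh_pr {x0 : D} {p i : ℕ} (hp : 0 < p) (hx : M.flen x0 = p) :
    M.face (M.face^[pr p i] x0) = M.face^[i] x0 := by
  rw [← iterate_succ_apply' (⇑M.face)]
  unfold pr
  split_ifs with h
  · have h1 : (p - 1).succ = p := by omega
    rw [h1, h, ← hx]
    exact iterate_minimalPeriod
  · have h1 : (i - 1).succ = i := by omega
    rw [h1]

omit [Fintype D] [DecidableEq D] in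
theorem wh_last {x : D} {q : ℕ} (hq : M.flen (M.α x) = q) (hq2 : 2 ≤ q) :
    M.face (M.face^[q - 2] (M.α x)) = M.α (M.σ (M.face x)) := by
  apply M.face.injective
  rw [wh_close, ← iterate_succ_apply' (⇑M.face), ← iterate_succ_apply' (⇑M.face)]
  have h1 : (q - 2).succ.succ = q := by omega
  rw [h1, ← hq]
  exact iterate_minimalPeriod

omit [Fintype D] [DecidableEq D] in
theorem wh_vertex {x0 : D} {p : ℕ} (hp : 4 ≤ p) (hx : M.flen x0 = p) {q : List ℕ}
    (hq : q.length = p) (hqi : ∀ i < p, q.getD i 0 = M.flen (M.α (M.face^[i] x0)))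
    (hq8 : ∀ i < p, q.getD i 0 ≤ 8) (hq4 : ∀ i < p, 4 ≤ q.getD i 0) {i k : ℕ} (hi : i < p)
    (hk : k = 0 ∨ (2 ≤ k ∧ k ≤ q.getD i 0 - 2)) :
    M.σ (whI M x0 (whV q i k).1) = whI M x0 (whV q i k).2.1 ∧
    M.σ (whI M x0 (whV q i k).2.1) = whI M x0 (whV q i k).2.2 ∧
    (whR M x0 i k = whI M x0 (whV q i k).1 ∨ whR M x0 i k = whI M x0 (whV q i k).2.1) := by
  have hpi : pr p i < p := by unfold pr; split_ifs <;> omega
  have hpr := wh_pr (M := M) (i := i) (by omega) hx
  have h8 := hq8 i hi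
  have h8' := hq8 _ hpi
  have h4' := hq4 _ hpi
  rcases hk with rfl | ⟨hk2, hkq⟩
  · unfold whV whR
    rw [if_pos rfl, if_pos rfl, whI_even, whI_even, whI_odd, whB0, whB1, whB0, hq]
    exact ⟨rfl, wh_closed_face hpr, Or.inl rfl⟩
  · by_cases hk : k = 2
    · subst hk
      unfold whV whR
      rw [if_neg (by omega), if_pos rfl, if_neg (by omega), whI_odd, whI_even, whI_odd, whB1,
        whB2 _ _ _ (le_refl _) (by omega), hq, whB2 _ _ _ (by omega) (by omega)]
      have e1 : M.face^[2] (M.α (M.face^[i] x0)) = M.σ (M.α (M.σ (M.face^[i] x0))) := by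
        have e2 : M.face^[2] (M.α (M.face^[i] x0)) = M.face (M.face (M.α (M.face^[i] x0))) := rfl
        rw [e2, face_apply (M := M) (M.α (M.face^[i] x0)), M.α2, face_apply]
      refine ⟨e1.symm, ?_, Or.inr rfl⟩
      rw [e1]
      have e3 := wh_last (M := M) (hqi _ hpi).symm (by omega)
      rw [hpr] at e3
      exact wh_closed_face e3
    · unfold whV whR
      rw [if_neg (by omega), if_neg hk, if_neg (by omega), whI_odd, whI_even, whI_even,
        whB2 _ _ _ (by omega) (by omega), whB2 _ _ _ (by omega) (by omega),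
        whB3 _ _ _ (by omega) (by omega)]
      have e1 : M.face^[k] (M.α (M.face^[i] x0)) =
          M.σ (M.α (M.face^[k - 1] (M.α (M.face^[i] x0)))) := by
        rw [← face_apply, ← iterate_succ_apply' (⇑M.face)]
        have e2 : (k - 1).succ = k := by omega
        rw [e2]
      refine ⟨e1.symm, ?_, Or.inr rfl⟩
      rw [e1]

omit [Fintype D] [DecidableEq D] in
theorem wh_inj_lt {x : D} {m n : ℕ} (hm : m < M.flen x) (hn : n < M.flen x)
    (h : M.face^[m] x = M.face^[n] x) : m = n :=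
  iterate_injOn_Iio_minimalPeriod hm hn h

omit [Fintype D] [DecidableEq D] in
theorem wh_idx (A1 : ∀ x y, M.Fc x y → M.Fc (M.α x) (M.α y) → y = x) {x0 : D} {i i' : ℕ}
    (hi : i < M.flen x0) (hi' : i' < M.flen x0)
    (h : M.Fc (M.α (M.face^[i] x0)) (M.α (M.face^[i'] x0))) : i = i' := by
  have h1 := A1 _ _ (wh_trans (wh_symm (wh_fc_iter x0 i)) (wh_fc_iter x0 i')) h
  exact wh_inj_lt hi hi' h1.symm

omit [Fintype D] [DecidableEq D] in
/-- different vertices have different representatives -/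
theorem wh_rep_inj (A0 : ∀ x, ¬ M.Fc x (M.α x))
    (A1 : ∀ x y, M.Fc x y → M.Fc (M.α x) (M.α y) → y = x)
    {x0 : D} {q : ℕ → ℕ} (hqi : ∀ i < M.flen x0, q i = M.flen (M.α (M.face^[i] x0)))
    {i k i' k' : ℕ} (hi : i < M.flen x0) (hi' : i' < M.flen x0)
    (hk : k = 0 ∨ (2 ≤ k ∧ k < q i)) (hk' : k' = 0 ∨ (2 ≤ k' ∧ k' < q i'))
    (h : whR M x0 i k = whR M x0 i' k') : i = i' ∧ k = k' := by
  have key : ∀ a b m, a < M.flen x0 → b < M.flen x0 →
      M.face^[a] x0 ≠ M.face^[m] (M.α (M.face^[b] x0)) := by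
    intro a b m _ _ he
    have h1 : M.Fc (M.α (M.face^[b] x0)) (M.face^[m] (M.α (M.face^[b] x0))) := wh_fc_iter _ _
    rw [← he] at h1
    have h2 : M.Fc (M.face^[a] x0) (M.face^[b] x0) :=
      wh_trans (wh_symm (wh_fc_iter x0 a)) (wh_fc_iter x0 b)
    exact A0 _ (wh_symm (wh_trans h1 h2))
  unfold whR at h
  rcases hk with rfl | ⟨hk, hkq⟩ <;> rcases hk' with rfl | ⟨hk', hkq'⟩
  · rw [if_pos rfl, if_pos rfl] at h
    exact ⟨wh_inj_lt hi hi' h, rfl⟩
  · rw [if_pos rfl, if_neg (by omega)] at h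
    exact absurd h (key _ _ _ hi hi')
  · rw [if_pos rfl, if_neg (by omega)] at h
    exact absurd h.symm (key _ _ _ hi' hi)
  · rw [if_neg (by omega), if_neg (by omega)] at h
    have h1 : i = i' := by
      apply wh_idx A1 hi hi'
      refine wh_trans (wh_fc_iter _ k) ?_
      rw [h]
      exact wh_symm (wh_fc_iter _ _)
    subst h1
    rw [hqi i hi] at hkq hkq'
    exact ⟨rfl, wh_inj_lt hkq hkq' h⟩

omit [Fintype D] [DecidableEq D] in
/-- a representative is not the image under `σ` of a representative -/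
theorem wh_rep_ne (A0 : ∀ x, ¬ M.Fc x (M.α x))
    (A1 : ∀ x y, M.Fc x y → M.Fc (M.α x) (M.α y) → y = x)
    (A2 : ∀ x y z, M.Fc (M.α x) y → M.Fc (M.α y) z → M.Fc (M.α z) x →
      (M.σ x = y ∧ M.σ y = z) ∨ (M.σ (M.α x) = M.α z ∧ M.σ (M.α z) = M.α y))
    {x0 : D} {q : ℕ → ℕ} (hqi : ∀ i < M.flen x0, q i = M.flen (M.α (M.face^[i] x0)))
    {i k i' k' : ℕ} (hi : i < M.flen x0) (hi' : i' < M.flen x0)
    (hk : k = 0 ∨ (2 ≤ k ∧ k + 2 ≤ q i)) (hk' : k' = 0 ∨ (2 ≤ k' ∧ k' + 2 ≤ q i')) :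
    whR M x0 i' k' ≠ M.σ (whR M x0 i k) := by
  intro h
  have hii : M.Fc (M.face^[i] x0) (M.face^[i'] x0) :=
    wh_trans (wh_symm (wh_fc_iter x0 i)) (wh_fc_iter x0 i')
  unfold whR at h
  rcases hk with rfl | ⟨hk, hkq⟩
  · rw [if_pos rfl] at h
    have h1 : M.Fc (M.α (M.face^[i] x0)) (M.σ (M.face^[i] x0)) := wh_fc_σ _
    rcases hk' with rfl | ⟨hk', hkq'⟩
    · rw [if_pos rfl] at h
      rw [← h] at h1
      exact A0 _ (wh_symm (wh_trans h1 (wh_symm hii)))
    · rw [if_neg (by omega)] at h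
      rw [← h] at h1
      have h2 : i = i' := wh_idx A1 hi hi' (wh_trans h1 (wh_symm (wh_fc_iter _ _)))
      subst h2
      rw [hqi i hi] at hkq'
      have h3 : M.σ (M.face^[i] x0) = M.face^[1] (M.α (M.face^[i] x0)) := by
        rw [iterate_one, face_apply, M.α2]
      rw [h3] at h
      have := wh_inj_lt (by omega) (by omega) h
      omega
  · rw [if_neg (by omega : ¬ k = 0)] at h
    rw [hqi i hi] at hkq
    set b := M.face^[k] (M.α (M.face^[i] x0)) with hb
    have h1 : M.Fc b (M.α (M.face^[i] x0)) := wh_symm (wh_fc_iter _ _)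
    have h2 : M.Fc (M.α b) (M.σ b) := wh_fc_σ _
    rw [← h] at h2
    rcases hk' with rfl | ⟨hk', hkq'⟩
    · rw [if_pos rfl] at h2
      have h3 : b = M.face^[0] (M.α (M.face^[i] x0)) := wh_adj0 A1 hii h1 h2
      have := wh_inj_lt (by omega) (by omega) (hb.symm.trans h3)
      omega
    · rw [if_neg (by omega)] at h2
      have h2' : M.Fc (M.α b) (M.α (M.face^[i'] x0)) := wh_trans h2 (wh_symm (wh_fc_iter _ _))
      rcases wh_adj A2 hii h1 h2' with ⟨h3, _⟩ | ⟨h3, _⟩
      · have h4 : b = M.face^[1] (M.α (M.face^[i] x0)) := by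
          rw [h3, iterate_one, face_apply, M.α2]
        have := wh_inj_lt (by omega) (by omega) (hb.symm.trans h4)
        omega
      · have h4 : M.face^[k + 1] (M.α (M.face^[i] x0)) = M.face^[0] (M.α (M.face^[i] x0)) := by
          rw [iterate_succ_apply', ← hb, h3, wh_close]
          rfl
        have := wh_inj_lt (by omega) (by omega) h4
        omega

omit [Fintype D] in
theorem wh_triple {ι : ℕ → D} {a b c x y : ℕ} (h1 : M.σ (ι a) = ι b) (h2 : M.σ (ι b) = ι c)
    (hx : x = a ∨ x = b ∨ x = c) (hy : y = a ∨ y = b ∨ y = c) (h : ι x = ι y) : x = y := by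
  have t1 : ι b ≠ ι a := by rw [← h1]; exact M.σ1 _
  have t2 : ι c ≠ ι b := by rw [← h2]; exact M.σ1 _
  have t3 : ι c ≠ ι a := by rw [← h2, ← h1]; exact σσ1 _
  rcases hx with rfl | rfl | rfl <;> rcases hy with rfl | rfl | rfl
  · rfl
  · exact absurd h.symm t1
  · exact absurd h.symm t3
  · exact absurd h t1
  · rfl
  · exact absurd h.symm t2
  · exact absurd h t3
  · exact absurd h t2
  · rfl

theorem wheel (A0 : ∀ x, ¬ M.Fc x (M.α x))
    (A1 : ∀ x y, M.Fc x y → M.Fc (M.α x) (M.α y) → y = x)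
    (A2 : ∀ x y z, M.Fc (M.α x) y → M.Fc (M.α y) z → M.Fc (M.α z) x →
      (M.σ x = y ∧ M.σ y = z) ∨ (M.σ (M.α x) = M.α z ∧ M.σ (M.α z) = M.α y))
    (x0 : D) (p : ℕ) (hp : 4 ≤ p) (hx : M.flen x0 = p) (q : List ℕ) (hq : q.length = p)
    (hqi : ∀ i < p, q.getD i 0 = M.flen (M.α (M.face^[i] x0)))
    (hq8 : ∀ i < p, q.getD i 0 ≤ 8) : ∃ ι : ℕ → D, Coded M q ι ∧ ι 0 = x0 := by
  have hq4 : ∀ i < p, 4 ≤ q.getD i 0 := by
    intro i hi
    rw [hqi i hi]
    apply nbr_len A0 A1 A2
    have h1 : M.flen (M.face^[i] x0) = M.flen x0 := by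
      unfold flen
      exact minimalPeriod_apply_iterate
        ((Injective.mem_periodicPts (M.face.injective)) _) i
    rw [h1, hx]
    exact hp
  have hqi' : ∀ i < M.flen x0, (fun i => q.getD i 0) i = M.flen (M.α (M.face^[i] x0)) := by
    rw [hx]; exact hqi
  have hmem : ∀ v ∈ wV q, ∃ i < p, ∃ k, (k = 0 ∨ (2 ≤ k ∧ k ≤ q.getD i 0 - 2)) ∧
      v = whV q i k := by
    intro v hv
    obtain ⟨i, hi, h⟩ := wh_mem (by rw [hq]; exact hq4) (by omega) hv
    exact ⟨i, hq ▸ hi, h⟩
  have hvx := fun (i k : ℕ) (hi : i < p) (hk : k = 0 ∨ (2 ≤ k ∧ k ≤ q.getD i 0 - 2)) =>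
    wh_vertex (M := M) (i := i) (k := k) hp hx hq hqi hq8 hq4 hi hk
  refine ⟨whI M x0, ⟨?_, ?_, ?_, ?_⟩, ?_⟩
  · intro v hv
    obtain ⟨i, hi, k, hk, rfl⟩ := hmem v hv
    exact (hvx i k hi hk).1
  · intro v hv
    obtain ⟨i, hi, k, hk, rfl⟩ := hmem v hv
    exact (hvx i k hi hk).2.1
  · intro x _ _
    exact whI_al x0 x
  · intro x hxc y hyc hxy
    unfold codes at hxc hyc
    rw [List.mem_flatMap] at hxc hyc
    obtain ⟨v, hv, hxv⟩ := hxc
    obtain ⟨w, hw, hyw⟩ := hyc
    obtain ⟨i, hi, k, hk, rfl⟩ := hmem v hv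
    obtain ⟨i', hi', k', hk', rfl⟩ := hmem w hw
    obtain ⟨a1, a2, a3⟩ := hvx i k hi hk
    obtain ⟨b1, b2, b3⟩ := hvx i' k' hi' hk'
    have h4 := hq4 i hi
    have h4' := hq4 i' hi'
    have kk : k = 0 ∨ (2 ≤ k ∧ k + 2 ≤ (fun i => q.getD i 0) i) := by
      rcases hk with hk | hk
      · exact Or.inl hk
      · right; refine ⟨hk.1, ?_⟩; simp only; omega
    have kk' : k' = 0 ∨ (2 ≤ k' ∧ k' + 2 ≤ (fun i => q.getD i 0) i') := by
      rcases hk' with hk | hk
      · exact Or.inl hk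
      · right; refine ⟨hk.1, ?_⟩; simp only; omega
    have kl : k = 0 ∨ (2 ≤ k ∧ k < (fun i => q.getD i 0) i) := by
      rcases kk with h | h
      · exact Or.inl h
      · right; refine ⟨h.1, ?_⟩; simp only at h ⊢; omega
    have kl' : k' = 0 ∨ (2 ≤ k' ∧ k' < (fun i => q.getD i 0) i') := by
      rcases kk' with h | h
      · exact Or.inl h
      · right; refine ⟨h.1, ?_⟩; simp only at h ⊢; omega
    rw [← hx] at hi hi'
    have n1 := wh_rep_ne A0 A1 A2 hqi' hi hi' kk kk'
    have n2 := wh_rep_ne A0 A1 A2 hqi' hi' hi kk' kk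
    have n3 : whR M x0 i k = whR M x0 i' k' → i = i' ∧ k = k' :=
      wh_rep_inj A0 A1 hqi' hi hi' kl kl'
    set A := whI M x0 (whV q i k).1 with hA
    set B := whI M x0 (whV q i' k').1 with hB
    rw [← a1] at a2 a3
    rw [← b1] at b2 b3
    have s3 := M.σ3
    -- the two vertices coincide
    have hx3 : whI M x0 x = A ∨ whI M x0 x = M.σ A ∨ whI M x0 x = M.σ (M.σ A) := by
      simp only [List.mem_cons, List.not_mem_nil, or_false] at hxv
      rcases hxv with rfl | rfl | rfl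
      · exact Or.inl rfl
      · exact Or.inr (Or.inl a1.symm)
      · exact Or.inr (Or.inr a2.symm)
    have hy3 : whI M x0 y = B ∨ whI M x0 y = M.σ B ∨ whI M x0 y = M.σ (M.σ B) := by
      simp only [List.mem_cons, List.not_mem_nil, or_false] at hyw
      rcases hyw with rfl | rfl | rfl
      · exact Or.inl rfl
      · exact Or.inr (Or.inl b1.symm)
      · exact Or.inr (Or.inr b2.symm)
    have hBA : B = A ∨ B = M.σ A ∨ B = M.σ (M.σ A) := by
      rw [hxy] at hx3
      rcases hx3 with h | h | h <;> rcases hy3 with h' | h' | h' <;> rw [h] at h'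
      · exact Or.inl h'.symm
      · exact Or.inr (Or.inr (by rw [h', s3]))
      · exact Or.inr (Or.inl (by rw [h', s3]))
      · exact Or.inr (Or.inl h'.symm)
      · exact Or.inl (σinj h'.symm)
      · exact Or.inr (Or.inr (by have := σinj h'; rw [this, s3]))
      · exact Or.inr (Or.inr h'.symm)
      · exact Or.inr (Or.inl (σinj h'.symm))
      · exact Or.inl (σinj (σinj h'.symm))
    have hRR : whR M x0 i k = whR M x0 i' k' := by
      by_contra hne
      rcases a3 with a3 | a3 <;> rcases b3 with b3 | b3 <;> rcases hBA with h | h | h <;>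
        rw [a3, b3, h] at n1 n2 hne <;> simp only [s3, ne_eq, not_true_eq_false] at n1 n2 hne
    obtain ⟨rfl, rfl⟩ := n3 hRR
    simp only [List.mem_cons, List.not_mem_nil, or_false] at hxv hyw
    exact wh_triple (M := M) a1 (by rw [← a1]; exact a2) hxv hyw hxy
  · have h0 := whI_even (M := M) x0 0
    have h1 := whB0 (M := M) x0 0
    exact h0.trans h1

end Pool.H64.NC.CubicMap
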